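import Mathlib

set_option autoImplicit false

namespace Pool.Agent.H395R3.Fim

/-- letters -/
abbrev Lt (k : ℕ) := Fin k × Bool

variable {k : ℕ}

/-- inverse letter -/
def inv (x : Lt k) : Lt k := (x.1, !x.2)

@[simp] lemma inv_inv (x : Lt k) : inv (inv x) = x := by
  simp [inv]

lemma inv_ne (x : Lt k) : inv x ≠ x := by
  intro h
  have := congrArg Prod.snd h
  simp [inv] at this

/-- vertices of the Cayley tree: reversed reduced words -/
abbrev Vx (k : ℕ) := List (Lt k)

/-- move from a vertex along a letter -/
def push (u : Vx k) (x : Lt k) : Vx k :=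
  match u with
  | [] => [x]
  | y :: t => if y = inv x then t else x :: y :: t

@[simp] lemma push_nil (x : Lt k) : push ([] : Vx k) x = [x] := rfl

lemma push_cons (y : Lt k) (t : Vx k) (x : Lt k) :
    push (y :: t) x = if y = inv x then t else x :: y :: t := rfl

/-- reducedness -/
def Red (u : Vx k) : Prop := List.IsChain (fun a b => a ≠ inv b) u

lemma red_nil : Red ([] : Vx k) := List.isChain_nil

lemma red_tail {x : Lt k} {u : Vx k} (h : Red (x :: u)) : Red u := by
  unfold Red at *
  exact h.tail

lemma red_cons {x y : Lt k} {u : Vx k} : Red (x :: y :: u) ↔ x ≠ inv y ∧ Red (y :: u) := by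
  unfold Red
  exact List.isChain_cons_cons

lemma red_push {u : Vx k} (h : Red u) (x : Lt k) : Red (push u x) := by
  cases u with
  | nil => simp [Red]
  | cons y t =>
    rw [push_cons]
    split_ifs with h1
    · exact red_tail h
    · refine red_cons.2 ⟨?_, h⟩
      intro h2
      apply h1
      rw [h2, inv_inv]

lemma push_push_inv {u : Vx k} (h : Red u) (x : Lt k) : push (push u x) (inv x) = u := by
  cases u with
  | nil => simp [push_cons]
  | cons y t =>
    rw [push_cons]
    split_ifs with h1
    · cases t with
      | nil => simp [h1]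
      | cons z t' =>
        have h2 := (red_cons.1 h).1
        rw [push_cons, if_neg, h1]
        intro h3
        apply h2
        rw [h1, h3]
        simp
    · rw [push_cons, if_pos (by simp)]

/-- visited vertices along a word -/
def vis (u : Vx k) : List (Lt k) → List (Vx k)
  | [] => [u]
  | x :: w => u :: vis (push u x) w

/-- final vertex of a word -/
def fin (u : Vx k) : List (Lt k) → Vx k
  | [] => u
  | x :: w => fin (push u x) w

@[simp] lemma vis_nil (u : Vx k) : vis u [] = [u] := rfl
@[simp] lemma vis_cons (u : Vx k) (x : Lt k) (w : List (Lt k)) :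
    vis u (x :: w) = u :: vis (push u x) w := rfl
@[simp] lemma fin_nil (u : Vx k) : fin u [] = u := rfl
@[simp] lemma fin_cons (u : Vx k) (x : Lt k) (w : List (Lt k)) :
    fin u (x :: w) = fin (push u x) w := rfl

lemma fin_append (u : Vx k) (w w' : List (Lt k)) : fin u (w ++ w') = fin (fin u w) w' := by
  induction w generalizing u with
  | nil => rfl
  | cons x w ih => simp [ih]

lemma start_mem_vis (u : Vx k) (w : List (Lt k)) : u ∈ vis u w := by
  cases w <;> simp

lemma fin_mem_vis (u : Vx k) (w : List (Lt k)) : fin u w ∈ vis u w := by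
  induction w generalizing u with
  | nil => simp
  | cons x w ih => simp [ih]

lemma mem_vis_append (u : Vx k) (w w' : List (Lt k)) (v : Vx k) :
    v ∈ vis u (w ++ w') ↔ v ∈ vis u w ∨ v ∈ vis (fin u w) w' := by
  induction w generalizing u with
  | nil =>
    simp only [List.nil_append, vis_nil, List.mem_singleton, fin_nil]
    constructor
    · intro h; exact Or.inr h
    · rintro (h | h)
      · rw [h]; exact start_mem_vis _ _
      · exact h
  | cons x w ih =>
    simp [ih, or_assoc]

lemma red_fin {u : Vx k} (h : Red u) (w : List (Lt k)) : Red (fin u w) := by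
  induction w generalizing u with
  | nil => exact h
  | cons x w ih => exact ih (red_push h x)

/-- inverse word -/
def winv (w : List (Lt k)) : List (Lt k) := (w.map inv).reverse

lemma winv_cons (x : Lt k) (w : List (Lt k)) : winv (x :: w) = winv w ++ [inv x] := by
  simp [winv]

lemma winv_winv (w : List (Lt k)) : winv (winv w) = w := by
  simp [winv, List.map_reverse, Function.comp_def]

lemma fin_winv {u : Vx k} (h : Red u) (w : List (Lt k)) : fin (fin u w) (winv w) = u := by
  induction w generalizing u with
  | nil => rfl
  | cons x w ih =>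
    rw [winv_cons, fin_append, fin_cons u x w, ih (red_push h x)]
    simp [push_push_inv h x]

lemma mem_vis_winv {u : Vx k} (h : Red u) (w : List (Lt k)) (v : Vx k) :
    v ∈ vis (fin u w) (winv w) ↔ v ∈ vis u w := by
  induction w generalizing u with
  | nil => rfl
  | cons x w ih =>
    rw [winv_cons, mem_vis_append, fin_cons, ih (red_push h x), fin_winv (red_push h x)]
    simp only [vis_cons, vis_nil, List.mem_cons, push_push_inv h x, List.not_mem_nil, or_false]
    constructor
    · rintro (h1 | h1 | h1)
      · exact Or.inr h1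
      · right; rw [h1]; exact start_mem_vis _ _
      · exact Or.inl h1
    · rintro (h1 | h1)
      · exact Or.inr (Or.inr h1)
      · exact Or.inl h1

/-- same Munn tree and same end point, from every reduced start -/
def Eqv (w w' : List (Lt k)) : Prop :=
  ∀ u : Vx k, Red u → fin u w = fin u w' ∧ ∀ v, v ∈ vis u w ↔ v ∈ vis u w'

lemma eqv_append {a b c d : List (Lt k)} (h1 : Eqv a b) (h2 : Eqv c d) :
    Eqv (a ++ c) (b ++ d) := by
  intro u hu
  obtain ⟨e1, e2⟩ := h1 u hu
  obtain ⟨e3, e4⟩ := h2 (fin u a) (red_fin hu a)
  refine ⟨?_, ?_⟩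
  · rw [fin_append, fin_append, e3, e1]
  · intro v
    rw [mem_vis_append, mem_vis_append, e2, e4, e1]

/-- the Munn congruence on the free monoid -/
def munnCon (k : ℕ) : Con (FreeMonoid (Lt k)) where
  r a b := Eqv (FreeMonoid.toList a) (FreeMonoid.toList b)
  iseqv :=
    { refl := fun a u _ => ⟨rfl, fun _ => Iff.rfl⟩
      symm := fun h u hu => ⟨(h u hu).1.symm, fun v => ((h u hu).2 v).symm⟩
      trans := fun h h' u hu => ⟨(h u hu).1.trans (h' u hu).1,
        fun v => ((h u hu).2 v).trans ((h' u hu).2 v)⟩ }
  mul' := by
    intro a b c d h1 h2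
    simp only [FreeMonoid.toList_mul]
    exact eqv_append h1 h2

/-- the generating relation of the frozen statement -/
def vagRel (k : ℕ) : FreeMonoid (Lt k) → FreeMonoid (Lt k) → Prop :=
  fun a b : FreeMonoid (Fin k × Bool) =>
    (∃ u : FreeMonoid (Fin k × Bool),
      a = u * FreeMonoid.ofList
            (((FreeMonoid.toList u).map (fun x => (x.1, !x.2))).reverse) * u ∧
      b = u) ∨
    (∃ u v : FreeMonoid (Fin k × Bool),
      a = u * FreeMonoid.ofList
            (((FreeMonoid.toList u).map (fun x => (x.1, !x.2))).reverse) *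
          v * FreeMonoid.ofList
            (((FreeMonoid.toList v).map (fun x => (x.1, !x.2))).reverse) ∧
      b = v * FreeMonoid.ofList
            (((FreeMonoid.toList v).map (fun x => (x.1, !x.2))).reverse) *
          u * FreeMonoid.ofList
            (((FreeMonoid.toList u).map (fun x => (x.1, !x.2))).reverse))

lemma winv_def (u : List (Lt k)) : (u.map (fun x => (x.1, !x.2))).reverse = winv u := rfl

lemma conGen_le_munn : conGen (vagRel k) ≤ munnCon k := by
  rw [Con.conGen_le]
  rintro a b (⟨u, rfl, rfl⟩ | ⟨u, v, rfl, rfl⟩)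
  · intro s hs
    simp only [FreeMonoid.toList_mul, winv_def, FreeMonoid.toList_ofList]
    refine ⟨?_, ?_⟩
    · rw [fin_append, fin_append, fin_winv hs]
    · intro x
      rw [mem_vis_append, mem_vis_append, fin_append, fin_winv hs, mem_vis_winv hs]
      tauto
  · intro s hs
    simp only [FreeMonoid.toList_mul, winv_def, FreeMonoid.toList_ofList]
    refine ⟨?_, ?_⟩
    · simp only [fin_append, fin_winv hs]
    · intro x
      simp only [mem_vis_append, fin_append, fin_winv hs, mem_vis_winv hs]
      tauto

/-! completeness -/

/-- the quotient monoid -/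
abbrev FIM (k : ℕ) := (conGen (vagRel k)).Quotient

/-- class of a word -/
def cls (w : List (Lt k)) : FIM k := ((FreeMonoid.ofList w : FreeMonoid (Lt k)) : FIM k)

lemma cls_append (a b : List (Lt k)) : cls (a ++ b) = cls a * cls b := by
  unfold cls
  rw [FreeMonoid.ofList_append]
  rfl

lemma cls_nil : cls ([] : List (Lt k)) = 1 := rfl

lemma cls_regular (u : List (Lt k)) : cls u * cls (winv u) * cls u = cls u := by
  rw [← cls_append, ← cls_append]
  unfold cls
  rw [Con.eq]
  apply ConGen.Rel.of
  left
  refine ⟨FreeMonoid.ofList u, ?_, rfl⟩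
  simp only [FreeMonoid.ofList_append, FreeMonoid.toList_ofList]
  rfl

lemma cls_comm (u v : List (Lt k)) :
    cls u * cls (winv u) * (cls v * cls (winv v)) = cls v * cls (winv v) * (cls u * cls (winv u)) := by
  simp only [← cls_append]
  unfold cls
  rw [Con.eq]
  apply ConGen.Rel.of
  right
  refine ⟨FreeMonoid.ofList u, FreeMonoid.ofList v, ?_, ?_⟩
  · simp only [FreeMonoid.ofList_append, FreeMonoid.toList_ofList, mul_assoc]
    rfl
  · simp only [FreeMonoid.ofList_append, FreeMonoid.toList_ofList, mul_assoc]
    rfl

/-- the class of the word leading to a vertex -/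
def rho (v : Vx k) : FIM k := cls v.reverse
/-- the class of its inverse -/
def rhoI (v : Vx k) : FIM k := cls (winv v.reverse)
/-- the idempotent of a vertex -/
def ee (v : Vx k) : FIM k := rho v * rhoI v

lemma ee_rho (v : Vx k) : ee v * rho v = rho v := cls_regular _

lemma ee_comm (u v : Vx k) : ee u * ee v = ee v * ee u := cls_comm _ _

lemma ee_idem (v : Vx k) : ee v * ee v = ee v := by
  unfold ee
  rw [← mul_assoc]
  congr 1
  exact cls_regular _

lemma rho_nil : rho ([] : Vx k) = 1 := rfl

lemma rho_step (u : Vx k) (x : Lt k) : rho u * cls [x] = ee u * rho (push u x) := by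
  cases u with
  | nil =>
    have h1 : ee ([] : Vx k) = 1 := by
      simp [ee, rho, rhoI, winv, cls_nil]
    rw [h1, rho_nil]
    simp [rho]
  | cons y t =>
    rw [push_cons]
    split_ifs with h1
    · -- backtracking
      have hx : x = inv y := by rw [h1, inv_inv]
      have e1 : rho (y :: t) = rho t * cls [y] := by
        simp [rho, cls_append]
      have e2 : rhoI (y :: t) = cls [inv y] * rhoI t := by
        simp only [rhoI, List.reverse_cons, winv, List.map_append, List.reverse_append,
          List.map_cons, List.map_nil]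
        rw [cls_append]
        rfl
      have e3 : rhoI t * rho t * (cls [y] * cls [inv y]) =
          (cls [y] * cls [inv y]) * (rhoI t * rho t) := by
        have := cls_comm (winv t.reverse) [y]
        rw [winv_winv] at this
        have h2 : winv [y] = [inv y] := by simp [winv]
        rw [h2] at this
        exact this
      have e4 : rho t * (rhoI t * rho t) = rho t := by
        rw [← mul_assoc]; exact cls_regular _
      calc rho (y :: t) * cls [x] = rho t * (cls [y] * cls [inv y]) := by
            rw [e1, hx, mul_assoc]
        _ = rho t * (rhoI t * rho t) * (cls [y] * cls [inv y]) := by rw [e4]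
        _ = rho t * (rhoI t * rho t * (cls [y] * cls [inv y])) := by
            simp only [mul_assoc]
        _ = rho t * ((cls [y] * cls [inv y]) * (rhoI t * rho t)) := by rw [e3]
        _ = ee (y :: t) * rho t := by
            unfold ee
            rw [e1, e2]
            simp only [mul_assoc]
    · have e1 : rho (x :: y :: t) = rho (y :: t) * cls [x] := by
        unfold rho
        rw [List.reverse_cons, cls_append]
      rw [e1, ← mul_assoc, ee_rho]

/-- product of idempotents -/
def EE (l : List (Vx k)) : FIM k := (l.map ee).prod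

lemma cls_eq (u : Vx k) (w : List (Lt k)) :
    rho u * cls w = EE (vis u w) * rho (fin u w) := by
  induction w generalizing u with
  | nil =>
    simp [EE, cls_nil, ee_rho]
  | cons x w ih =>
    have : x :: w = [x] ++ w := rfl
    rw [this, cls_append, ← mul_assoc, rho_step, mul_assoc, ih]
    simp [EE, mul_assoc]

lemma ee_EE_comm (v : Vx k) (l : List (Vx k)) : ee v * EE l = EE l * ee v := by
  induction l with
  | nil => simp [EE]
  | cons a l ih =>
    have : EE (a :: l) = ee a * EE l := by simp [EE]
    rw [this, ← mul_assoc, ee_comm v a, mul_assoc, ih, mul_assoc]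

lemma ee_mul_EE {v : Vx k} {l : List (Vx k)} (h : v ∈ l) : ee v * EE l = EE l := by
  induction l with
  | nil => simp at h
  | cons a l ih =>
    have e : EE (a :: l) = ee a * EE l := by simp [EE]
    rcases List.mem_cons.1 h with h1 | h1
    · rw [e, h1, ← mul_assoc, ee_idem]
    · rw [e, ← mul_assoc, ee_comm, mul_assoc, ih h1]

lemma EE_mul_of_subset {l l' : List (Vx k)} (h : ∀ v ∈ l', v ∈ l) : EE l' * EE l = EE l := by
  induction l' with
  | nil => simp [EE]
  | cons a l' ih =>
    have e : EE (a :: l') = ee a * EE l' := by simp [EE]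
    rw [e, mul_assoc, ih (fun v hv => h v (List.mem_cons_of_mem _ hv)),
      ee_mul_EE (h a (by simp))]

lemma EE_comm (l l' : List (Vx k)) : EE l * EE l' = EE l' * EE l := by
  induction l with
  | nil => simp [EE]
  | cons a l ih =>
    have e : EE (a :: l) = ee a * EE l := by simp [EE]
    rw [e, mul_assoc, ih, ← mul_assoc, ee_EE_comm, mul_assoc]

lemma EE_congr {l l' : List (Vx k)} (h : ∀ v, v ∈ l ↔ v ∈ l') : EE l = EE l' := by
  have h1 : EE l' * EE l = EE l := EE_mul_of_subset (fun v hv => (h v).2 hv)
  have h2 : EE l * EE l' = EE l' := EE_mul_of_subset (fun v hv => (h v).1 hv)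
  rw [← h1, EE_comm, h2]

/-- Munn's theorem -/
theorem munn (w w' : List (Lt k)) :
    conGen (vagRel k) (FreeMonoid.ofList w) (FreeMonoid.ofList w') ↔
      (∀ v, v ∈ vis [] w ↔ v ∈ vis [] w') ∧ fin [] w = fin [] w' := by
  constructor
  · intro h
    have h1 := conGen_le_munn h
    have h2 := h1 [] red_nil
    simp only [FreeMonoid.toList_ofList] at h2
    exact ⟨h2.2, h2.1⟩
  · rintro ⟨h1, h2⟩
    have e1 := cls_eq [] w
    have e2 := cls_eq [] w'
    rw [rho_nil, one_mul] at e1 e2
    have e3 : cls w = cls w' := by
      rw [e1, e2, EE_congr h1, h2]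
    unfold cls at e3
    rwa [Con.eq] at e3

end Pool.Agent.H395R3.Fim
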