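import Pool.Agent.H395R3.FimA

set_option autoImplicit false

namespace Pool.Agent.H395R3.Fim

open Relation

variable {k : ℕ} {Q : Type}

/-- one automaton step staying inside `D` -/
def stepD (δ : Q → Lt k → Q → Prop) (D : Set (Vx k)) (z z' : Vx k × Q) : Prop :=
  z.1 ∈ D ∧ z'.1 ∈ D ∧ ∃ x, δ z.2 x z'.2 ∧ z'.1 = push z.1 x

/-- reachability inside `D` -/
def Rch (δ : Q → Lt k → Q → Prop) (D : Set (Vx k)) : Vx k × Q → Vx k × Q → Prop :=
  ReflTransGen (stepD δ D)

/-- prefix closed sets of reduced words, below the context `c` -/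
structure Tree (c : List (Lt k)) (D : Set (Vx k)) : Prop where
  nil_mem : [] ∈ D
  tail : ∀ x u, x :: u ∈ D → u ∈ D
  red : ∀ u ∈ D, Red (u ++ c)

/-- subtree in direction `a` -/
def child (D : Set (Vx k)) (a : Lt k) : Set (Vx k) := {u | u ++ [a] ∈ D}

lemma red_left {u v : List (Lt k)} (h : Red (u ++ v)) : Red u := by
  unfold Red at *
  exact h.left_of_append

lemma Tree.single_mem {c : List (Lt k)} {D : Set (Vx k)} (hD : Tree c D) {u : Vx k} {a : Lt k}
    (h : u ++ [a] ∈ D) : [a] ∈ D := by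
  induction u with
  | nil => exact h
  | cons x u ih => exact ih (hD.tail x _ h)

lemma Tree.child {c : List (Lt k)} {D : Set (Vx k)} (hD : Tree c D) {a : Lt k}
    (h : [a] ∈ D) : Tree [a] (child D a) where
  nil_mem := h
  tail := fun x u hu => hD.tail x _ hu
  red := fun u hu => red_left (hD.red _ hu)

lemma push_snoc (u : Vx k) (a x : Lt k) (h : ¬ (u = [] ∧ x = inv a)) :
    push (u ++ [a]) x = push u x ++ [a] := by
  cases u with
  | nil =>
    simp only [List.nil_append, push_cons, push_nil, List.cons_append]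
    rw [if_neg]
    intro h1
    exact h ⟨rfl, by rw [h1, inv_inv]⟩
  | cons y t =>
    simp only [List.cons_append, push_cons]
    split_ifs <;> simp

/-- shift of a point of a child -/
def up (a : Lt k) (z : Vx k × Q) : Vx k × Q := (z.1 ++ [a], z.2)

section
variable {δ : Q → Lt k → Q → Prop} {c : List (Lt k)} {D : Set (Vx k)}

lemma step_lift (hD : Tree c D) {a : Lt k} {z z' : Vx k × Q}
    (h : stepD δ (child D a) z z') : stepD δ D (up a z) (up a z') := by
  obtain ⟨h1, h2, x, h3, h4⟩ := h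
  refine ⟨h1, h2, x, h3, ?_⟩
  have h5 : ¬ (z.1 = [] ∧ x = inv a) := by
    rintro ⟨h6, h7⟩
    rw [h6, push_nil, h7] at h4
    have h8 : [inv a] ++ [a] ∈ D := by
      have : z'.1 ++ [a] ∈ D := h2
      rwa [h4] at this
    have h9 := hD.red _ h8
    have h10 : Red (inv a :: a :: c) := h9
    exact (red_cons.1 h10).1 rfl
  show z'.1 ++ [a] = push (z.1 ++ [a]) x
  rw [push_snoc _ _ _ h5, h4]

lemma rch_lift (hD : Tree c D) {a : Lt k} {z z' : Vx k × Q}
    (h : Rch δ (child D a) z z') : Rch δ D (up a z) (up a z') := by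
  unfold Rch at *
  exact ReflTransGen.lift (up a) (fun _ _ h => step_lift hD h) _ _ h

/-- excursions from the root -/
def Loop (δ : Q → Lt k → Q → Prop) (D : Set (Vx k)) (q q' : Q) : Prop :=
  ∃ a p p', [a] ∈ D ∧ δ q a p ∧ Rch δ (child D a) ([], p) ([], p') ∧ δ p' (inv a) q'

lemma rch_root (q : Q) {z : Vx k × Q} (h : Rch δ D ([], q) z) :
    (z.1 = [] ∧ ReflTransGen (Loop δ D) q z.2) ∨
    ∃ a w r p, [a] ∈ D ∧ z.1 = w ++ [a] ∧ ReflTransGen (Loop δ D) q r ∧ δ r a p ∧
      Rch δ (child D a) ([], p) (w, z.2) := by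
  unfold Rch at h
  induction h with
  | refl => left; exact ⟨rfl, ReflTransGen.refl⟩
  | @tail z z' _ hs ih =>
    obtain ⟨h1, h2, x, h3, h4⟩ := hs
    rcases ih with ⟨h5, h6⟩ | ⟨a, w, r, p, h5, h6, h7, h8, h9⟩
    · right
      rw [h5, push_nil] at h4
      refine ⟨x, [], z.2, z'.2, ?_, by rw [h4]; rfl, h6, h3, ReflTransGen.refl⟩
      rw [← h4]; exact h2
    · by_cases h10 : w = [] ∧ x = inv a
      · left
        rw [h6, h10.1, h10.2] at h4
        simp only [List.nil_append, push_cons, inv_inv, if_true] at h4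
        refine ⟨h4, h7.tail ⟨a, p, z.2, h5, h8, ?_, ?_⟩⟩
        · rw [h10.1] at h9; exact h9
        · rw [← h10.2]; exact h3
      · right
        rw [h6, push_snoc _ _ _ h10] at h4
        refine ⟨a, push w x, r, p, h5, h4, h7, h8, ?_⟩
        refine ReflTransGen.tail h9 ⟨?_, ?_, x, h3, rfl⟩
        · show w ++ [a] ∈ D
          rw [← h6]; exact h1
        · show push w x ++ [a] ∈ D
          rw [← h4]; exact h2

lemma rch_child {w : Vx k} {a : Lt k} {s : Q} {z : Vx k × Q} (h : Rch δ D (w ++ [a], s) z) :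
    (∃ u, z.1 = u ++ [a] ∧ Rch δ (child D a) (w, s) (u, z.2)) ∨
    ∃ q q', Rch δ (child D a) (w, s) ([], q) ∧ δ q (inv a) q' ∧ Rch δ D ([], q') z := by
  unfold Rch at h
  induction h with
  | refl => left; exact ⟨w, rfl, ReflTransGen.refl⟩
  | @tail z z' _ hs ih =>
    rcases ih with ⟨u, h5, h6⟩ | ⟨q, q', h5, h6, h7⟩
    · obtain ⟨h1, h2, x, h3, h4⟩ := hs
      by_cases h10 : u = [] ∧ x = inv a
      · right
        rw [h5, h10.1, h10.2] at h4
        simp only [List.nil_append, push_cons, inv_inv, if_true] at h4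
        refine ⟨z.2, z'.2, ?_, ?_, ?_⟩
        · rw [h10.1] at h6; exact h6
        · rw [← h10.2]; exact h3
        · have : z' = ([], z'.2) := by rw [← h4]
          rw [this]
          exact ReflTransGen.refl
      · left
        rw [h5, push_snoc _ _ _ h10] at h4
        refine ⟨push u x, h4, ReflTransGen.tail h6 ⟨?_, ?_, x, h3, rfl⟩⟩
        · show u ++ [a] ∈ D
          rw [← h5]; exact h1
        · show push u x ++ [a] ∈ D
          rw [← h4]; exact h2
    · right
      exact ⟨q, q', h5, h6, ReflTransGen.tail h7 hs⟩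

lemma step_down (hD : Tree c D) {a : Lt k} (ha : [a] ∈ D) {q p : Q} (h : δ q a p) :
    stepD δ D ([], q) ([a], p) := ⟨hD.nil_mem, ha, a, h, rfl⟩

lemma step_up (hD : Tree c D) {a : Lt k} (ha : [a] ∈ D) {q p : Q} (h : δ q (inv a) p) :
    stepD δ D ([a], q) ([], p) := ⟨ha, hD.nil_mem, inv a, h, by simp [push_cons]⟩

/-- root relation -/
def RR (δ : Q → Lt k → Q → Prop) (D : Set (Vx k)) (p q : Q) : Prop := Rch δ D ([], p) ([], q)

lemma loop_rch (hD : Tree c D) {q q' : Q} (h : Loop δ D q q') : RR δ D q q' := by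
  obtain ⟨a, p, p', ha, h1, h2, h3⟩ := h
  have h4 : Rch δ D ([], q) ([a], p) := ReflTransGen.single (step_down hD ha h1)
  have h5 : Rch δ D ([a], p) ([a], p') := rch_lift hD h2
  have h6 : Rch δ D ([a], p') ([], q') := ReflTransGen.single (step_up hD ha h3)
  exact (ReflTransGen.trans h4 h5).trans h6

lemma RR_iff (hD : Tree c D) {p q : Q} : RR δ D p q ↔ ReflTransGen (Loop δ D) p q := by
  constructor
  · intro h
    rcases rch_root p h with ⟨_, h1⟩ | ⟨a, w, r, p', h5, h6, _⟩
    · exact h1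
    · simp at h6
  · intro h
    induction h with
    | refl => exact ReflTransGen.refl
    | tail _ h1 ih => exact ReflTransGen.trans ih (loop_rch hD h1)

lemma in_iff (hD : Tree c D) {w : Vx k} {a : Lt k} (ha : w ++ [a] ∈ D) {p s : Q} :
    Rch δ D ([], p) (w ++ [a], s) ↔
      ∃ r p', RR δ D p r ∧ δ r a p' ∧ Rch δ (child D a) ([], p') (w, s) := by
  constructor
  · intro h
    rcases rch_root p h with ⟨h0, h1⟩ | ⟨b, w', r, p', h5, h6, h7, h8, h9⟩
    · simp at h0
    · have h10 := List.append_inj' h6 rfl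
      obtain ⟨h11, h12⟩ := h10
      simp only [List.cons.injEq, and_true] at h12
      subst h11
      subst h12
      exact ⟨r, p', (RR_iff hD).2 h7, h8, h9⟩
  · rintro ⟨r, p', h1, h2, h3⟩
    have ha' := hD.single_mem ha
    refine ReflTransGen.trans h1 (ReflTransGen.head (step_down hD ha' h2) ?_)
    exact rch_lift hD h3

lemma out_iff (hD : Tree c D) {w : Vx k} {a : Lt k} (ha : w ++ [a] ∈ D) {q s : Q} :
    Rch δ D (w ++ [a], s) ([], q) ↔
      ∃ q1 q2, Rch δ (child D a) (w, s) ([], q1) ∧ δ q1 (inv a) q2 ∧ RR δ D q2 q := by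
  constructor
  · intro h
    rcases rch_child h with ⟨u, h1, _⟩ | ⟨q1, q2, h1, h2, h3⟩
    · simp at h1
    · exact ⟨q1, q2, h1, h2, h3⟩
  · rintro ⟨q1, q2, h1, h2, h3⟩
    have ha' := hD.single_mem ha
    have h4 : Rch δ D (w ++ [a], s) ([a], q1) := rch_lift hD h1
    exact ReflTransGen.trans h4 (ReflTransGen.head (step_up hD ha' h2) h3)

lemma via_mp (hD : Tree c D) {w : Vx k} {a : Lt k} (ha : w ++ [a] ∈ D) {s : Q}
    {z : Vx k × Q} {q1 q2 : Q} (h1 : Rch δ (child D a) (w, s) ([], q1))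
    (h2 : δ q1 (inv a) q2) (h3 : Rch δ D ([], q2) z) : Rch δ D (w ++ [a], s) z := by
  have ha' := hD.single_mem ha
  have h4 : Rch δ D (w ++ [a], s) ([a], q1) := rch_lift hD h1
  exact ReflTransGen.trans h4 (ReflTransGen.head (step_up hD ha' h2) h3)

lemma same_iff (hD : Tree c D) {w w' : Vx k} {a : Lt k} (ha : w ++ [a] ∈ D) {s s' : Q} :
    Rch δ D (w ++ [a], s) (w' ++ [a], s') ↔
      Rch δ (child D a) (w, s) (w', s') ∨
      ∃ q1 q2, Rch δ (child D a) (w, s) ([], q1) ∧ δ q1 (inv a) q2 ∧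
        Rch δ D ([], q2) (w' ++ [a], s') := by
  constructor
  · intro h
    rcases rch_child h with ⟨u, h1, h2⟩ | h
    · left
      have := (List.append_inj' h1 rfl).1
      rw [this]
      exact h2
    · exact Or.inr h
  · rintro (h | ⟨q1, q2, h1, h2, h3⟩)
    · exact rch_lift hD h
    · exact via_mp hD ha h1 h2 h3

lemma diff_iff (hD : Tree c D) {w w' : Vx k} {a b : Lt k} (hab : a ≠ b) (ha : w ++ [a] ∈ D)
    {s s' : Q} :
    Rch δ D (w ++ [a], s) (w' ++ [b], s') ↔
      ∃ q1 q2, Rch δ (child D a) (w, s) ([], q1) ∧ δ q1 (inv a) q2 ∧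
        Rch δ D ([], q2) (w' ++ [b], s') := by
  constructor
  · intro h
    rcases rch_child h with ⟨u, h1, h2⟩ | h
    · exfalso
      have := (List.append_inj' h1 rfl).2
      simp only [List.cons.injEq, and_true] at this
      exact hab this.symm
    · exact h
  · rintro ⟨q1, q2, h1, h2, h3⟩
    exact via_mp hD ha h1 h2 h3

end

end Pool.Agent.H395R3.Fim
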