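import Pool.Agent.H395R3.FimB

set_option autoImplicit false

namespace Pool.Agent.H395R3.Fim

open Relation

variable {k : ℕ} {Q : Type}

/-- data of a point -/
abbrev Pt (Q : Type) := Set Q × Set Q × Prop
/-- data of a pair of points -/
abbrev Dt (Q : Type) := Pt Q × Pt Q × Prop × Prop

/-- data of a point of `D` -/
def pt (δ : Q → Lt k → Q → Prop) (D : Set (Vx k)) (St : Set (Vx k × Q)) (z : Vx k × Q) : Pt Q :=
  ({p | Rch δ D ([], p) z}, {q | Rch δ D z ([], q)}, z ∈ St)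

/-- data of a pair of points of `D` -/
def dat (δ : Q → Lt k → Q → Prop) (D : Set (Vx k)) (St : Set (Vx k × Q)) (z z' : Vx k × Q) :
    Dt Q := (pt δ D St z, pt δ D St z', Rch δ D z z', Rch δ D z' z)

/-- family of pair data -/
def Fam (δ : Q → Lt k → Q → Prop) (D : Set (Vx k)) (Z St : Set (Vx k × Q)) : Set (Dt Q) :=
  {e | ∃ z ∈ Z, ∃ z' ∈ Z, e = dat δ D St z z'}

/-- restriction to a child -/
def childZ (Z : Set (Vx k × Q)) (a : Lt k) : Set (Vx k × Q) := {z | up a z ∈ Z}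

/-- root point data -/
def rpt (R : Q → Q → Prop) (T0 : Set Q) (s : Q) : Pt Q := ({p | R p s}, {q | R s q}, s ∈ T0)

/-- lifted point data -/
def upt (δ : Q → Lt k → Q → Prop) (R : Q → Q → Prop) (a : Lt k) (x : Pt Q) : Pt Q :=
  ({p | ∃ r p', R p r ∧ δ r a p' ∧ p' ∈ x.1},
    {q | ∃ q1 q2, q1 ∈ x.2.1 ∧ δ q1 (inv a) q2 ∧ R q2 q}, x.2.2)

/-- connection through the root -/
def via (δ : Q → Lt k → Q → Prop) (a : Lt k) (x : Pt Q) (I : Set Q) : Prop :=
  ∃ q1 q2, q1 ∈ x.2.1 ∧ δ q1 (inv a) q2 ∧ q2 ∈ I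

/-- composition of families -/
def Psi (δ : Q → Lt k → Q → Prop) (R : Q → Q → Prop) (S0 T0 : Set Q) (U : Set (Lt k × Dt Q)) :
    Set (Dt Q) :=
  {e | (∃ s ∈ S0, ∃ s' ∈ S0, e = (rpt R T0 s, rpt R T0 s', R s s', R s' s)) ∨
    (∃ s ∈ S0, ∃ u ∈ U, e = (rpt R T0 s, upt δ R u.1 u.2.1,
      s ∈ (upt δ R u.1 u.2.1).1, s ∈ (upt δ R u.1 u.2.1).2.1)) ∨
    (∃ s ∈ S0, ∃ u ∈ U, e = (upt δ R u.1 u.2.1, rpt R T0 s,
      s ∈ (upt δ R u.1 u.2.1).2.1, s ∈ (upt δ R u.1 u.2.1).1)) ∨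
    (∃ u ∈ U, e = (upt δ R u.1 u.2.1, upt δ R u.1 u.2.2.1,
      (u.2.2.2.1 ∨ via δ u.1 u.2.1 (upt δ R u.1 u.2.2.1).1),
      (u.2.2.2.2 ∨ via δ u.1 u.2.2.1 (upt δ R u.1 u.2.1).1))) ∨
    (∃ u ∈ U, ∃ u' ∈ U, u.1 ≠ u'.1 ∧ e = (upt δ R u.1 u.2.1, upt δ R u'.1 u'.2.1,
      via δ u.1 u.2.1 (upt δ R u'.1 u'.2.1).1, via δ u'.1 u'.2.1 (upt δ R u.1 u.2.1).1))}

section
variable {δ : Q → Lt k → Q → Prop} {c : List (Lt k)} {D : Set (Vx k)}

lemma pt_up (hD : Tree c D) (St : Set (Vx k × Q)) {w : Vx k} {a : Lt k} (ha : w ++ [a] ∈ D)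
    (s : Q) : pt δ D St (w ++ [a], s) =
      upt δ (RR δ D) a (pt δ (child D a) (childZ St a) (w, s)) := by
  unfold pt upt
  refine Prod.ext ?_ (Prod.ext ?_ ?_)
  · ext p
    exact in_iff hD ha
  · ext q
    exact out_iff hD ha
  · rfl

lemma dat_rc (hD : Tree c D) (St : Set (Vx k × Q)) {w : Vx k} {a : Lt k} (ha : w ++ [a] ∈ D)
    (s s' : Q) : dat δ D St ([], s) (w ++ [a], s') =
      (rpt (RR δ D) {s | ([], s) ∈ St} s,
        upt δ (RR δ D) a (pt δ (child D a) (childZ St a) (w, s')),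
        s ∈ (upt δ (RR δ D) a (pt δ (child D a) (childZ St a) (w, s'))).1,
        s ∈ (upt δ (RR δ D) a (pt δ (child D a) (childZ St a) (w, s'))).2.1) := by
  rw [← pt_up hD St ha]
  rfl

lemma dat_cr (hD : Tree c D) (St : Set (Vx k × Q)) {w : Vx k} {a : Lt k} (ha : w ++ [a] ∈ D)
    (s s' : Q) : dat δ D St (w ++ [a], s') ([], s) =
      (upt δ (RR δ D) a (pt δ (child D a) (childZ St a) (w, s')),
        rpt (RR δ D) {s | ([], s) ∈ St} s,
        s ∈ (upt δ (RR δ D) a (pt δ (child D a) (childZ St a) (w, s'))).2.1,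
        s ∈ (upt δ (RR δ D) a (pt δ (child D a) (childZ St a) (w, s'))).1) := by
  rw [← pt_up hD St ha]
  rfl

lemma dat_same (hD : Tree c D) (St : Set (Vx k × Q)) {w w' : Vx k} {a : Lt k}
    (ha : w ++ [a] ∈ D) (ha' : w' ++ [a] ∈ D) (s s' : Q) :
    dat δ D St (w ++ [a], s) (w' ++ [a], s') =
      (upt δ (RR δ D) a (pt δ (child D a) (childZ St a) (w, s)),
        upt δ (RR δ D) a (pt δ (child D a) (childZ St a) (w', s')),
        (Rch δ (child D a) (w, s) (w', s') ∨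
          via δ a (pt δ (child D a) (childZ St a) (w, s))
            (upt δ (RR δ D) a (pt δ (child D a) (childZ St a) (w', s'))).1),
        (Rch δ (child D a) (w', s') (w, s) ∨
          via δ a (pt δ (child D a) (childZ St a) (w', s'))
            (upt δ (RR δ D) a (pt δ (child D a) (childZ St a) (w, s))).1)) := by
  rw [← pt_up hD St ha, ← pt_up hD St ha']
  unfold dat
  refine Prod.ext rfl (Prod.ext rfl (Prod.ext ?_ ?_))
  · exact propext (same_iff hD ha)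
  · exact propext (same_iff hD ha')

lemma dat_diff (hD : Tree c D) (St : Set (Vx k × Q)) {w w' : Vx k} {a b : Lt k} (hab : a ≠ b)
    (ha : w ++ [a] ∈ D) (ha' : w' ++ [b] ∈ D) (s s' : Q) :
    dat δ D St (w ++ [a], s) (w' ++ [b], s') =
      (upt δ (RR δ D) a (pt δ (child D a) (childZ St a) (w, s)),
        upt δ (RR δ D) b (pt δ (child D b) (childZ St b) (w', s')),
        via δ a (pt δ (child D a) (childZ St a) (w, s))
            (upt δ (RR δ D) b (pt δ (child D b) (childZ St b) (w', s'))).1,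
        via δ b (pt δ (child D b) (childZ St b) (w', s'))
            (upt δ (RR δ D) a (pt δ (child D a) (childZ St a) (w, s))).1) := by
  rw [← pt_up hD St ha, ← pt_up hD St ha']
  unfold dat
  refine Prod.ext rfl (Prod.ext rfl (Prod.ext ?_ ?_))
  · exact propext (diff_iff hD hab ha)
  · exact propext (diff_iff hD (Ne.symm hab) ha')

/-- union of the families of the children -/
def UU (δ : Q → Lt k → Q → Prop) (D : Set (Vx k)) (Z St : Set (Vx k × Q)) :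
    Set (Lt k × Dt Q) :=
  {u | [u.1] ∈ D ∧ u.2 ∈ Fam δ (child D u.1) (childZ Z u.1) (childZ St u.1)}

lemma eq_nil_or_snoc (u : Vx k) : u = [] ∨ ∃ w a, u = w ++ [a] := by
  rcases List.eq_nil_or_concat u with h | ⟨w, a, h⟩
  · exact Or.inl h
  · exact Or.inr ⟨w, a, by simpa using h⟩

lemma Fam_eq (hD : Tree c D) {Z St : Set (Vx k × Q)} (hZ : ∀ z ∈ Z, z.1 ∈ D) :
    Fam δ D Z St = Psi δ (RR δ D) {s | ([], s) ∈ Z} {s | ([], s) ∈ St} (UU δ D Z St) := by
  ext e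
  constructor
  · rintro ⟨⟨u, s⟩, hz, ⟨u', s'⟩, hz', rfl⟩
    have hu := hZ _ hz
    have hu' := hZ _ hz'
    simp only at hu hu'
    rcases eq_nil_or_snoc u with rfl | ⟨w, a, rfl⟩
    · rcases eq_nil_or_snoc u' with rfl | ⟨w', a', rfl⟩
      · left
        exact ⟨s, hz, s', hz', rfl⟩
      · right; left
        refine ⟨s, hz, (a', dat δ (child D a') (childZ St a') (w', s') (w', s')), ?_, ?_⟩
        · exact ⟨hD.single_mem hu', (w', s'), hz', (w', s'), hz', rfl⟩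
        · exact dat_rc hD St hu' s s'
    · rcases eq_nil_or_snoc u' with rfl | ⟨w', a', rfl⟩
      · right; right; left
        refine ⟨s', hz', (a, dat δ (child D a) (childZ St a) (w, s) (w, s)), ?_, ?_⟩
        · exact ⟨hD.single_mem hu, (w, s), hz, (w, s), hz, rfl⟩
        · exact dat_cr hD St hu s' s
      · by_cases hab : a = a'
        · subst hab
          right; right; right; left
          refine ⟨(a, dat δ (child D a) (childZ St a) (w, s) (w', s')), ?_, ?_⟩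
          · exact ⟨hD.single_mem hu, (w, s), hz, (w', s'), hz', rfl⟩
          · exact dat_same hD St hu hu' s s'
        · right; right; right; right
          refine ⟨(a, dat δ (child D a) (childZ St a) (w, s) (w, s)), ?_,
            (a', dat δ (child D a') (childZ St a') (w', s') (w', s')), ?_, hab, ?_⟩
          · exact ⟨hD.single_mem hu, (w, s), hz, (w, s), hz, rfl⟩
          · exact ⟨hD.single_mem hu', (w', s'), hz', (w', s'), hz', rfl⟩
          · exact dat_diff hD St hab hu hu' s s'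
  · rintro (⟨s, hs, s', hs', rfl⟩ | ⟨s, hs, ⟨a, e⟩, ⟨ha, ⟨w, t⟩, h1, ⟨w', t'⟩, h2, h3⟩, rfl⟩ |
      ⟨s, hs, ⟨a, e⟩, ⟨ha, ⟨w, t⟩, h1, ⟨w', t'⟩, h2, h3⟩, rfl⟩ |
      ⟨⟨a, e⟩, ⟨ha, ⟨w, t⟩, h1, ⟨w', t'⟩, h2, h3⟩, rfl⟩ |
      ⟨⟨a, e⟩, ⟨ha, ⟨w, t⟩, h1, ⟨w', t'⟩, h2, h3⟩, ⟨b, e'⟩, ⟨hb, ⟨v, r⟩, h4, ⟨v', r'⟩, h5, h6⟩,
        hab, rfl⟩)
    · exact ⟨([], s), hs, ([], s'), hs', rfl⟩
    · simp only at h1 h2 h3
      subst h3
      refine ⟨([], s), hs, (w ++ [a], t), h1, ?_⟩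
      exact (dat_rc hD St (hZ _ h1) s t).symm
    · simp only at h1 h2 h3
      subst h3
      refine ⟨(w ++ [a], t), h1, ([], s), hs, ?_⟩
      exact (dat_cr hD St (hZ _ h1) s t).symm
    · simp only at h1 h2 h3
      subst h3
      refine ⟨(w ++ [a], t), h1, (w' ++ [a], t'), h2, ?_⟩
      exact (dat_same hD St (hZ _ h1) (hZ _ h2) t t').symm
    · simp only at h1 h2 h3 h4 h5 h6 hab
      subst h3
      subst h6
      refine ⟨(w ++ [a], t), h1, (v ++ [b], r), h4, ?_⟩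
      exact (dat_diff hD St hab (hZ _ h1) (hZ _ h4) t r).symm

end

/-- valid decorations -/
structure Val (F : Set Q) (D M : Set (Vx k)) (Z St : Set (Vx k × Q)) : Prop where
  sub : ∀ z ∈ Z, z.1 ∈ D
  cov : ∀ u ∈ D, ∃ s, (u, s) ∈ Z
  stZ : ∀ z ∈ St, z ∈ Z
  stM : ∀ z ∈ St, z.1 ∈ M ∧ z.2 ∈ F
  ex : ∀ g ∈ M, ∃ f, (g, f) ∈ St

lemma Val.child {F : Set Q} {D M : Set (Vx k)} {Z St : Set (Vx k × Q)} (h : Val F D M Z St)
    (a : Lt k) : Val F (child D a) (Fim.child M a) (childZ Z a) (childZ St a) where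
  sub := fun z hz => h.sub _ hz
  cov := fun u hu => h.cov _ hu
  stZ := fun z hz => h.stZ _ hz
  stM := fun z hz => h.stM _ hz
  ex := fun g hg => h.ex _ hg

/-- the types -/
abbrev Ty (Q : Type) := Prop × Set (Q × Q) × Set (Set (Dt Q))

/-- type of a marked tree -/
def ty (δ : Q → Lt k → Q → Prop) (F : Set Q) (D M : Set (Vx k)) : Ty Q :=
  (M.Nonempty, {pq | RR δ D pq.1 pq.2}, {Φ | ∃ Z St, Val F D M Z St ∧ Φ = Fam δ D Z St})

section
variable {δ : Q → Lt k → Q → Prop} {F : Set Q} {c : List (Lt k)} {D D' M M' : Set (Vx k)}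

lemma RR_congr (hD : Tree c D) (hD' : Tree c D') (h1 : ∀ a, [a] ∈ D ↔ [a] ∈ D')
    (h2 : ∀ a, [a] ∈ D → ty δ F (child D a) (child M a) = ty δ F (child D' a) (child M' a)) :
    RR δ D = RR δ D' := by
  have h3 : Loop δ D = Loop δ D' := by
    funext q q'
    apply propext
    constructor
    · rintro ⟨a, p, p', ha, e1, e2, e3⟩
      refine ⟨a, p, p', (h1 a).1 ha, e1, ?_, e3⟩
      have h4 : (p, p') ∈ (ty δ F (child D a) (child M a)).2.1 := e2
      rw [h2 a ha] at h4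
      exact h4
    · rintro ⟨a, p, p', ha, e1, e2, e3⟩
      have ha' := (h1 a).2 ha
      refine ⟨a, p, p', ha', e1, ?_, e3⟩
      have h4 : (p, p') ∈ (ty δ F (child D' a) (child M' a)).2.1 := e2
      rw [← h2 a ha'] at h4
      exact h4
  funext p q
  apply propext
  rw [RR_iff hD, RR_iff hD', h3]

lemma ty_sub (hD : Tree c D) (hD' : Tree c D') (hM' : M' ⊆ D') (h1 : ∀ a, [a] ∈ D ↔ [a] ∈ D')
    (h2 : ∀ a, [a] ∈ D → ty δ F (child D a) (child M a) = ty δ F (child D' a) (child M' a))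
    (h3 : [] ∈ M ↔ [] ∈ M') :
    (ty δ F D M).2.2 ⊆ (ty δ F D' M').2.2 := by
  rintro Φ ⟨Z, St, hV, rfl⟩
  have key : ∀ a, ∃ Zf Sf : Set (Vx k × Q), [a] ∈ D → Val F (child D' a) (child M' a) Zf Sf ∧
      Fam δ (child D a) (childZ Z a) (childZ St a) = Fam δ (child D' a) Zf Sf := by
    intro a
    by_cases ha : [a] ∈ D
    · have h4 : Fam δ (child D a) (childZ Z a) (childZ St a) ∈
          (ty δ F (child D a) (child M a)).2.2 := ⟨_, _, hV.child a, rfl⟩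
      rw [h2 a ha] at h4
      obtain ⟨Zf, Sf, h5, h6⟩ := h4
      exact ⟨Zf, Sf, fun _ => ⟨h5, h6⟩⟩
    · exact ⟨∅, ∅, fun h => absurd h ha⟩
  choose Zf Sf hf using key
  set Z' : Set (Vx k × Q) := {z | (z.1 = [] ∧ z ∈ Z) ∨
    ∃ a w, [a] ∈ D' ∧ z.1 = w ++ [a] ∧ (w, z.2) ∈ Zf a} with hZ'
  set St' : Set (Vx k × Q) := {z | (z.1 = [] ∧ z ∈ St) ∨
    ∃ a w, [a] ∈ D' ∧ z.1 = w ++ [a] ∧ (w, z.2) ∈ Sf a} with hSt'
  have cZ : ∀ a, [a] ∈ D' → childZ Z' a = Zf a := by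
    intro a ha
    ext ⟨u, s⟩
    constructor
    · rintro (⟨e1, _⟩ | ⟨b, w, e1, e2, e3⟩)
      · simp [up] at e1
      · have e4 := List.append_inj' (show u ++ [a] = w ++ [b] from e2) rfl
        obtain ⟨e5, e6⟩ := e4
        simp only [List.cons.injEq, and_true] at e6
        subst e5; subst e6
        exact e3
    · intro h
      right
      exact ⟨a, u, ha, rfl, h⟩
  have cS : ∀ a, [a] ∈ D' → childZ St' a = Sf a := by
    intro a ha
    ext ⟨u, s⟩
    constructor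
    · rintro (⟨e1, _⟩ | ⟨b, w, e1, e2, e3⟩)
      · simp [up] at e1
      · have e4 := List.append_inj' (show u ++ [a] = w ++ [b] from e2) rfl
        obtain ⟨e5, e6⟩ := e4
        simp only [List.cons.injEq, and_true] at e6
        subst e5; subst e6
        exact e3
    · intro h
      right
      exact ⟨a, u, ha, rfl, h⟩
  have rZ : {s | (([] : Vx k), s) ∈ Z'} = {s | ([], s) ∈ Z} := by
    ext s
    constructor
    · rintro (⟨_, e⟩ | ⟨b, w, e1, e2, e3⟩)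
      · exact e
      · simp at e2
    · intro h
      exact Or.inl ⟨rfl, h⟩
  have rS : {s | (([] : Vx k), s) ∈ St'} = {s | ([], s) ∈ St} := by
    ext s
    constructor
    · rintro (⟨_, e⟩ | ⟨b, w, e1, e2, e3⟩)
      · exact e
      · simp at e2
    · intro h
      exact Or.inl ⟨rfl, h⟩
  have hV' : Val F D' M' Z' St' := by
    constructor
    · rintro ⟨u, s⟩ (⟨e1, e2⟩ | ⟨a, w, e1, e2, e3⟩)
      · simp only at e1
        rw [e1]
        exact hD'.nil_mem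
      · simp only at e2
        rw [e2]
        exact ((hf a) ((h1 a).2 e1)).1.sub _ e3
    · intro u hu
      rcases eq_nil_or_snoc u with rfl | ⟨w, a, rfl⟩
      · obtain ⟨s, hs⟩ := hV.cov [] hD.nil_mem
        exact ⟨s, Or.inl ⟨rfl, hs⟩⟩
      · have ha := hD'.single_mem hu
        obtain ⟨s, hs⟩ := ((hf a) ((h1 a).2 ha)).1.cov w hu
        exact ⟨s, Or.inr ⟨a, w, ha, rfl, hs⟩⟩
    · rintro ⟨u, s⟩ (⟨e1, e2⟩ | ⟨a, w, e1, e2, e3⟩)
      · exact Or.inl ⟨e1, hV.stZ _ e2⟩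
      · exact Or.inr ⟨a, w, e1, e2, ((hf a) ((h1 a).2 e1)).1.stZ _ e3⟩
    · rintro ⟨u, s⟩ (⟨e1, e2⟩ | ⟨a, w, e1, e2, e3⟩)
      · have e4 := hV.stM _ e2
        simp only at e1 e4 ⊢
        rw [e1] at e4 ⊢
        exact ⟨h3.1 e4.1, e4.2⟩
      · have e4 := ((hf a) ((h1 a).2 e1)).1.stM _ e3
        simp only at e2 e4 ⊢
        rw [e2]
        exact e4
    · intro g hg
      rcases eq_nil_or_snoc g with rfl | ⟨w, a, rfl⟩
      · obtain ⟨f, e1⟩ := hV.ex [] (h3.2 hg)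
        exact ⟨f, Or.inl ⟨rfl, e1⟩⟩
      · have ha := hD'.single_mem (hM' hg)
        obtain ⟨f, e1⟩ := ((hf a) ((h1 a).2 ha)).1.ex w hg
        exact ⟨f, Or.inr ⟨a, w, ha, rfl, e1⟩⟩
  refine ⟨Z', St', hV', ?_⟩
  rw [Fam_eq hD hV.sub, Fam_eq hD' hV'.sub, RR_congr hD hD' h1 h2, rZ, rS]
  congr 1
  ext ⟨a, e⟩
  constructor
  · rintro ⟨ha, he⟩
    refine ⟨(h1 a).1 ha, ?_⟩
    simp only at ha he ⊢
    rw [cZ a ((h1 a).1 ha), cS a ((h1 a).1 ha), ← (hf a ha).2]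
    exact he
  · rintro ⟨ha, he⟩
    have ha' := (h1 a).2 ha
    refine ⟨ha', ?_⟩
    simp only at ha he ⊢
    rw [cZ a ha, cS a ha, ← (hf a ha').2] at he
    exact he

lemma ty_congr (hD : Tree c D) (hD' : Tree c D') (hM : M ⊆ D) (hM' : M' ⊆ D')
    (h1 : ∀ a, [a] ∈ D ↔ [a] ∈ D')
    (h2 : ∀ a, [a] ∈ D → ty δ F (child D a) (child M a) = ty δ F (child D' a) (child M' a))
    (h3 : [] ∈ M ↔ [] ∈ M') :
    ty δ F D M = ty δ F D' M' := by
  have h2' : ∀ a, [a] ∈ D' →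
      ty δ F (child D' a) (child M' a) = ty δ F (child D a) (child M a) :=
    fun a ha => (h2 a ((h1 a).2 ha)).symm
  refine Prod.ext ?_ (Prod.ext ?_ ?_)
  · apply propext
    show M.Nonempty ↔ M'.Nonempty
    have aux : ∀ (D D' M M' : Set (Vx k)), Tree c D → M ⊆ D → (∀ a, [a] ∈ D ↔ [a] ∈ D') →
        (∀ a, [a] ∈ D → ty δ F (child D a) (child M a) = ty δ F (child D' a) (child M' a)) →
        ([] ∈ M ↔ [] ∈ M') → M.Nonempty → M'.Nonempty := by
      intro D D' M M' hD hM h1 h2 h3 ⟨g, hg⟩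
      rcases eq_nil_or_snoc g with rfl | ⟨w, a, rfl⟩
      · exact ⟨[], h3.1 hg⟩
      · have ha := hD.single_mem (hM hg)
        have h4 := congrArg Prod.fst (h2 a ha)
        have h5 : (child M a).Nonempty := ⟨w, hg⟩
        have h6 : (child M' a).Nonempty := by
          have : (child M a).Nonempty = (child M' a).Nonempty := h4
          rwa [this] at h5
        obtain ⟨v, hv⟩ := h6
        exact ⟨v ++ [a], hv⟩
    exact ⟨aux D D' M M' hD hM h1 h2 h3,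
      aux D' D M' M hD' hM' (fun a => (h1 a).symm) h2' h3.symm⟩
  · show {pq | RR δ D pq.1 pq.2} = {pq : Q × Q | RR δ D' pq.1 pq.2}
    rw [RR_congr hD hD' h1 h2]
  · exact Set.Subset.antisymm (ty_sub hD hD' hM' h1 h2 h3)
      (ty_sub hD' hD hM (fun a => (h1 a).symm) h2' h3.symm)

end

end Pool.Agent.H395R3.Fim
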