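import Pool.Agent.H395R3.FimC

set_option autoImplicit false

namespace Pool.Agent.H395R3.Fim

open Relation

variable {k : ℕ} {Q : Type}

lemma stab {α : Type} (A : Finset α) (S : ℕ → Set α) (hA : ∀ n, S n ⊆ A)
    (mono : ∀ n, S n ⊆ S (n + 1)) (step : ∀ n, S n = S (n + 1) → S (n + 1) = S (n + 2)) :
    ∀ m, S m ⊆ S A.card := by
  classical
  have hfin : ∀ n, (S n).Finite := fun n => (A.finite_toSet).subset (hA n)
  have hmono : Monotone S := monotone_nat_of_le_succ mono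
  have key : ∀ n, (∃ i < n, S i = S (i + 1)) ∨ n ≤ (S n).ncard := by
    intro n
    induction n with
    | zero => right; exact Nat.zero_le _
    | succ n ih =>
      rcases ih with ⟨i, hi, h⟩ | h
      · left; exact ⟨i, by omega, h⟩
      · by_cases he : S n = S (n + 1)
        · left; exact ⟨n, by omega, he⟩
        · right
          have h1 : S n ⊂ S (n + 1) := lt_of_le_of_ne (mono n) he
          have h2 := Set.ncard_lt_ncard h1 (hfin _)
          omega
  have hcard : ∀ n, (S n).ncard ≤ A.card := by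
    intro n
    rw [← Set.ncard_coe_finset A]
    exact Set.ncard_le_ncard (hA n) A.finite_toSet
  obtain ⟨i, hi, h⟩ : ∃ i < A.card + 1, S i = S (i + 1) := by
    rcases key (A.card + 1) with h | h
    · exact h
    · have := hcard (A.card + 1)
      omega
  have hconst : ∀ j, S (i + j) = S (i + j + 1) := by
    intro j
    induction j with
    | zero => exact h
    | succ j ih => exact step _ ih
  have hconst' : ∀ j, S (i + j) = S i := by
    intro j
    induction j with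
    | zero => rfl
    | succ j ih => rw [← ih]; exact (hconst j).symm
  intro m
  by_cases hm : m ≤ A.card
  · exact hmono hm
  · have e1 : S m = S i := by
      have := hconst' (m - i)
      rwa [Nat.add_sub_cancel' (by omega)] at this
    have e2 : S A.card = S i := by
      have := hconst' (A.card - i)
      rwa [Nat.add_sub_cancel' (by omega)] at this
    rw [e1, e2]

/-- reglue subtrees -/
def glue (D : Set (Vx k)) (Df : Lt k → Set (Vx k)) : Set (Vx k) :=
  {u | u = [] ∨ ∃ a w, [a] ∈ D ∧ u = w ++ [a] ∧ w ∈ Df a}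

/-- reglue marks -/
def glueM (D M : Set (Vx k)) (Mf : Lt k → Set (Vx k)) : Set (Vx k) :=
  {u | (u = [] ∧ [] ∈ M) ∨ ∃ a w, [a] ∈ D ∧ u = w ++ [a] ∧ w ∈ Mf a}

lemma snoc_inj {u v : Vx k} {a b : Lt k} (h : u ++ [a] = v ++ [b]) : u = v ∧ a = b := by
  have e4 := List.append_inj' h rfl
  obtain ⟨e5, e6⟩ := e4
  simp only [List.cons.injEq, and_true] at e6
  exact ⟨e5, e6⟩

lemma red_glue {w : Vx k} {a : Lt k} {c : List (Lt k)} (h1 : Red (w ++ [a]))
    (h2 : Red ([a] ++ c)) : Red ((w ++ [a]) ++ c) := by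
  induction w with
  | nil => exact h2
  | cons x w ih =>
    have h3 := ih (red_tail h1)
    cases w with
    | nil =>
      refine red_cons.2 ⟨(red_cons.1 h1).1, h3⟩
    | cons y w =>
      refine red_cons.2 ⟨(red_cons.1 h1).1, h3⟩

section
variable {c : List (Lt k)} {D M : Set (Vx k)} {Df Mf : Lt k → Set (Vx k)}

lemma glue_tree (hD : Tree c D) (hf : ∀ a, [a] ∈ D → Tree [a] (Df a)) : Tree c (glue D Df) where
  nil_mem := Or.inl rfl
  tail := by
    intro x u hu
    rcases hu with h | ⟨a, w, h1, h2, h3⟩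
    · simp at h
    · cases w with
      | nil =>
        simp only [List.nil_append, List.cons.injEq] at h2
        exact Or.inl h2.2
      | cons y w =>
        simp only [List.cons_append, List.cons.injEq] at h2
        exact Or.inr ⟨a, w, h1, h2.2, (hf a h1).tail _ _ h3⟩
  red := by
    intro u hu
    rcases hu with rfl | ⟨a, w, h1, rfl, h3⟩
    · exact hD.red _ hD.nil_mem
    · exact red_glue ((hf a h1).red w h3) (hD.red _ h1)

lemma child_glue {a : Lt k} (ha : [a] ∈ D) : child (glue D Df) a = Df a := by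
  ext u
  constructor
  · rintro (h | ⟨b, w, h1, h2, h3⟩)
    · simp at h
    · obtain ⟨rfl, rfl⟩ := snoc_inj h2
      exact h3
  · intro h
    exact Or.inr ⟨a, u, ha, rfl, h⟩

lemma child_glueM {a : Lt k} (ha : [a] ∈ D) : child (glueM D M Mf) a = Mf a := by
  ext u
  constructor
  · rintro (h | ⟨b, w, h1, h2, h3⟩)
    · simp at h
    · obtain ⟨rfl, rfl⟩ := snoc_inj h2
      exact h3
  · intro h
    exact Or.inr ⟨a, u, ha, rfl, h⟩

lemma single_glue (hf : ∀ a, [a] ∈ D → Tree [a] (Df a)) (a : Lt k) :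
    [a] ∈ D ↔ [a] ∈ glue D Df := by
  constructor
  · intro h
    exact Or.inr ⟨a, [], h, rfl, (hf a h).nil_mem⟩
  · rintro (h | ⟨b, w, h1, h2, h3⟩)
    · simp at h
    · have : [] ++ [a] = w ++ [b] := h2
      obtain ⟨_, rfl⟩ := snoc_inj this
      exact h1

lemma glueM_sub (hf : ∀ a, [a] ∈ D → Mf a ⊆ Df a) : glueM D M Mf ⊆ glue D Df := by
  rintro u (⟨rfl, _⟩ | ⟨a, w, h1, h2, h3⟩)
  · exact Or.inl rfl
  · exact Or.inr ⟨a, w, h1, h2, hf a h1 h3⟩

lemma nil_glueM : [] ∈ M ↔ [] ∈ glueM D M Mf := by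
  constructor
  · intro h; exact Or.inl ⟨rfl, h⟩
  · rintro (⟨_, h⟩ | ⟨a, w, h1, h2, h3⟩)
    · exact h
    · simp at h2

lemma glueM_subsingleton (hs : M.Subsingleton)
    (hf : ∀ a, [a] ∈ D → (Mf a).Subsingleton ∧ ((Mf a).Nonempty → (child M a).Nonempty)) :
    (glueM D M Mf).Subsingleton := by
  rintro u (⟨rfl, h0⟩ | ⟨a, w, h1, rfl, h3⟩) v (⟨rfl, h0'⟩ | ⟨b, w', h1', rfl, h3'⟩)
  · rfl
  · exfalso
    obtain ⟨g, hg⟩ := (hf b h1').2 ⟨_, h3'⟩
    have := hs h0 hg
    simp at this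
  · exfalso
    obtain ⟨g, hg⟩ := (hf a h1).2 ⟨_, h3⟩
    have := hs h0' hg
    simp at this
  · obtain ⟨g, hg⟩ := (hf a h1).2 ⟨_, h3⟩
    obtain ⟨g', hg'⟩ := (hf b h1').2 ⟨_, h3'⟩
    have h5 : g ++ [a] = g' ++ [b] := hs hg hg'
    obtain ⟨_, rfl⟩ := snoc_inj h5
    have := (hf a h1).1 h3 h3'
    rw [this]

end

/-- types realised at bounded depth -/
def SS (δ₁ δ₂ : Q → Lt k → Q → Prop) (F₁ F₂ : Set Q) (d : ℕ) :
    Set (Option (Lt k) × Ty Q × Ty Q) :=
  {x | ∃ D M, Tree x.1.toList D ∧ M ⊆ D ∧ M.Subsingleton ∧ (∀ u ∈ D, u.length ≤ d) ∧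
    x.2 = (ty δ₁ F₁ D M, ty δ₂ F₂ D M)}

lemma SS_step (δ₁ δ₂ : Q → Lt k → Q → Prop) (F₁ F₂ : Set Q) (n : ℕ)
    (h : SS δ₁ δ₂ F₁ F₂ n = SS δ₁ δ₂ F₁ F₂ (n + 1)) :
    SS δ₁ δ₂ F₁ F₂ (n + 1) = SS δ₁ δ₂ F₁ F₂ (n + 2) := by
  apply Set.Subset.antisymm
  · rintro x ⟨D, M, h1, h2, h3, h4, h5⟩
    exact ⟨D, M, h1, h2, h3, fun u hu => (h4 u hu).trans (by omega), h5⟩
  · rintro ⟨o, t⟩ ⟨D, M, h1, h2, h3, h4, h5⟩
    simp only at h1 h5
    have key : ∀ a, ∃ D' M' : Set (Vx k), [a] ∈ D → Tree [a] D' ∧ M' ⊆ D' ∧ M'.Subsingleton ∧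
        (∀ u ∈ D', u.length ≤ n) ∧
        (ty δ₁ F₁ (child D a) (child M a) = ty δ₁ F₁ D' M') ∧
        (ty δ₂ F₂ (child D a) (child M a) = ty δ₂ F₂ D' M') := by
      intro a
      by_cases ha : [a] ∈ D
      · have h6 : (some a, (ty δ₁ F₁ (child D a) (child M a), ty δ₂ F₂ (child D a) (child M a)))
            ∈ SS δ₁ δ₂ F₁ F₂ (n + 1) := by
          refine ⟨child D a, child M a, h1.child ha, fun u hu => h2 hu, ?_, ?_, rfl⟩
          · intro u hu v hv
            exact (snoc_inj (h3 hu hv)).1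
          · intro u hu
            have := h4 _ hu
            simp only [List.length_append, List.length_cons, List.length_nil] at this
            omega
        rw [← h] at h6
        obtain ⟨D', M', g1, g2, g3, g4, g5⟩ := h6
        refine ⟨D', M', fun _ => ⟨g1, g2, g3, g4, ?_, ?_⟩⟩
        · exact (Prod.ext_iff.1 g5).1
        · exact (Prod.ext_iff.1 g5).2
      · exact ⟨∅, ∅, fun h => absurd h ha⟩
    choose Df Mf hf using key
    have t1 : Tree o.toList (glue D Df) := glue_tree h1 (fun a ha => (hf a ha).1)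
    have t2 : glueM D M Mf ⊆ glue D Df := glueM_sub (fun a ha => (hf a ha).2.1)
    refine ⟨glue D Df, glueM D M Mf, t1, t2, ?_, ?_, ?_⟩
    · refine glueM_subsingleton h3 (fun a ha => ⟨(hf a ha).2.2.1, ?_⟩)
      intro hne
      have h7 := (Prod.ext_iff.1 (hf a ha).2.2.2.2.1).1
      have h8 : (child M a).Nonempty = (Mf a).Nonempty := h7
      rw [h8]
      exact hne
    · rintro u (rfl | ⟨a, w, e1, rfl, e3⟩)
      · simp
      · have := (hf a e1).2.2.2.1 w e3
        simp only [List.length_append, List.length_cons, List.length_nil]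
        omega
    · simp only
      rw [h5]
      have e1 := single_glue (D := D) (Df := Df) (fun a ha => (hf a ha).1)
      refine Prod.ext ?_ ?_
      · refine ty_congr h1 t1 h2 t2 e1 ?_ nil_glueM
        intro a ha
        rw [child_glue ha, child_glueM ha]
        exact (hf a ha).2.2.2.2.1
      · refine ty_congr h1 t1 h2 t2 e1 ?_ nil_glueM
        intro a ha
        rw [child_glue ha, child_glueM ha]
        exact (hf a ha).2.2.2.2.2

/-- small model property -/
theorem small_model [Fintype Q] (δ₁ δ₂ : Q → Lt k → Q → Prop) (F₁ F₂ : Set Q)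
    {D M : Set (Vx k)} (hD : Tree [] D) (hfin : D.Finite) (hM : M ⊆ D) (hs : M.Subsingleton) :
    ∃ D' M', Tree [] D' ∧ M' ⊆ D' ∧ M'.Subsingleton ∧
      (∀ u ∈ D', u.length ≤ Nat.card (Option (Lt k) × Ty Q × Ty Q)) ∧
      ty δ₁ F₁ D M = ty δ₁ F₁ D' M' ∧ ty δ₂ F₂ D M = ty δ₂ F₂ D' M' := by
  classical
  haveI : Finite (Option (Lt k) × Ty Q × Ty Q) := inferInstance
  letI : Fintype (Option (Lt k) × Ty Q × Ty Q) := Fintype.ofFinite _
  obtain ⟨d, hd⟩ : ∃ d, ∀ u ∈ D, u.length ≤ d := by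
    refine ⟨∑ u ∈ hfin.toFinset, u.length, fun u hu => ?_⟩
    exact Finset.single_le_sum (f := fun u : Vx k => u.length) (fun _ _ => Nat.zero_le _)
      (hfin.mem_toFinset.2 hu)
  have h1 := stab (Finset.univ : Finset (Option (Lt k) × Ty Q × Ty Q)) (SS δ₁ δ₂ F₁ F₂)
    (fun n x _ => by simp)
    (fun n x hx => by
      obtain ⟨D, M, h1, h2, h3, h4, h5⟩ := hx
      exact ⟨D, M, h1, h2, h3, fun u hu => (h4 u hu).trans (by omega), h5⟩)
    (SS_step δ₁ δ₂ F₁ F₂) d
  have h2 : (none, (ty δ₁ F₁ D M, ty δ₂ F₂ D M)) ∈ SS δ₁ δ₂ F₁ F₂ d :=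
    ⟨D, M, hD, hM, hs, hd, rfl⟩
  obtain ⟨D', M', g1, g2, g3, g4, g5⟩ := h1 h2
  refine ⟨D', M', g1, g2, g3, ?_, (Prod.ext_iff.1 g5).1, (Prod.ext_iff.1 g5).2⟩
  rw [Nat.card_eq_fintype_card]
  rwa [Finset.card_univ] at g4

end Pool.Agent.H395R3.Fim
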