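import Pool.Agent.H395R3.FimD

set_option autoImplicit false

namespace Pool.Agent.H395R3.Fim

open Relation

variable {k : ℕ} {Q : Type}

/-- paths of the automaton -/
def Path (δ : Q → Lt k → Q → Prop) : Q → List (Lt k) → Q → Prop
  | q, [], q' => q = q'
  | q, x :: w, q' => ∃ r, δ q x r ∧ Path δ r w q'

lemma path_append (δ : Q → Lt k → Q → Prop) (q q' : Q) (w w' : List (Lt k)) :
    Path δ q (w ++ w') q' ↔ ∃ r, Path δ q w r ∧ Path δ r w' q' := by
  induction w generalizing q with
  | nil =>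
    constructor
    · intro h; exact ⟨q, rfl, h⟩
    · rintro ⟨r, h1, h2⟩
      have : q = r := h1
      rw [this]; exact h2
  | cons x w ih =>
    constructor
    · rintro ⟨r, h1, h2⟩
      obtain ⟨r', h3, h4⟩ := (ih r).1 h2
      exact ⟨r', ⟨r, h1, h3⟩, h4⟩
    · rintro ⟨r', ⟨r, h1, h3⟩, h4⟩
      exact ⟨r, h1, (ih r).2 ⟨r', h3, h4⟩⟩

lemma path_iff (δ : Q → Lt k → Q → Prop) (q q' : Q) (w : List (Lt k)) :
    Path δ q w q' ↔ ∃ st : ℕ → Q, st 0 = q ∧ st w.length = q' ∧
      ∀ i a, w[i]? = some a → δ (st i) a (st (i + 1)) := by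
  induction w generalizing q with
  | nil =>
    constructor
    · intro h
      have h' : q = q' := h
      exact ⟨fun _ => q, rfl, h', by intro i a hi; simp at hi⟩
    · rintro ⟨st, h1, h2, _⟩
      have h2' : st 0 = q' := h2
      show q = q'
      rw [← h1, h2']
  | cons x w ih =>
    constructor
    · rintro ⟨r, h1, h2⟩
      obtain ⟨st, h3, h4, h5⟩ := (ih r).1 h2
      refine ⟨fun i => match i with | 0 => q | i + 1 => st i, rfl, ?_, ?_⟩
      · exact h4
      · intro i a hi
        cases i with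
        | zero =>
          have : x = a := by simpa using hi
          subst this
          show δ q x (st 0)
          rw [h3]; exact h1
        | succ i =>
          exact h5 i a (by simpa using hi)
    · rintro ⟨st, h3, h4, h5⟩
      refine ⟨st 1, ?_, (ih _).2 ⟨fun i => st (i + 1), rfl, ?_, ?_⟩⟩
      · have := h5 0 x (by simp)
        rwa [h3] at this
      · exact h4
      · intro i a hi
        exact h5 (i + 1) a (by simpa using hi)

/-- acceptance -/
def AccQ (δ : Q → Lt k → Q → Prop) (q0 : Q) (F : Set Q) (w : List (Lt k)) : Prop :=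
  ∃ f ∈ F, Path δ q0 w f

/-- good families -/
def Good (q0 : Q) (Φ : Set (Dt Q)) : Prop :=
  ∀ e ∈ Φ, q0 ∈ e.1.1 ∧ (e.2.2.1 ∨ e.2.2.2) ∧ (e.2.1.2.2 → e.2.2.1)

/-- acceptance of a pointed tree -/
def AccT (δ : Q → Lt k → Q → Prop) (q0 : Q) (F : Set Q) (D M : Set (Vx k)) : Prop :=
  ∃ Φ ∈ (ty δ F D M).2.2, Good q0 Φ

lemma red_of_vis {u : Vx k} (hu : Red u) (w : List (Lt k)) : ∀ v ∈ vis u w, Red v := by
  induction w generalizing u with
  | nil => intro v hv; simp at hv; rw [hv]; exact hu
  | cons x w ih =>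
    intro v hv
    rcases List.mem_cons.1 hv with h | h
    · rw [h]; exact hu
    · exact ih (red_push hu x) v h

lemma tail_of_vis (w : List (Lt k)) : ∀ x u, x :: u ∈ vis ([] : Vx k) w → u ∈ vis ([] : Vx k) w := by
  induction w using List.reverseRecOn with
  | nil => intro x u h; simp at h
  | append_singleton w y ih =>
    intro x u h
    rw [mem_vis_append] at h ⊢
    rcases h with h | h
    · exact Or.inl (ih x u h)
    · simp only [vis_cons, vis_nil, List.mem_cons, List.not_mem_nil, or_false] at h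
      rcases h with h | h
      · left
        apply ih x u
        rw [h]
        exact fin_mem_vis _ _
      · left
        have hf := fin_mem_vis ([] : Vx k) w
        cases hfin : fin ([] : Vx k) w with
        | nil =>
          rw [hfin, push_nil] at h
          simp only [List.cons.injEq] at h
          rw [h.2]
          exact start_mem_vis _ _
        | cons z t =>
          rw [hfin] at h hf
          rw [push_cons] at h
          split_ifs at h with h1
          · have h2 := ih z t hf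
            rw [← h] at h2
            exact ih x u h2
          · simp only [List.cons.injEq] at h
            rw [h.2]
            exact hf

/-- the Munn tree of a word -/
def mt (w : List (Lt k)) : Set (Vx k) := {v | v ∈ vis [] w}

lemma mt_tree (w : List (Lt k)) : Tree [] (mt w) where
  nil_mem := start_mem_vis _ _
  tail := tail_of_vis w
  red := by
    intro u hu
    rw [List.append_nil]
    exact red_of_vis red_nil w u hu

lemma vis_take {u : Vx k} (w : List (Lt k)) : ∀ v ∈ vis u w, ∃ i ≤ w.length, v = fin u (w.take i) := by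
  induction w generalizing u with
  | nil => intro v hv; simp at hv; exact ⟨0, le_rfl, by simp [hv]⟩
  | cons x w ih =>
    intro v hv
    rcases List.mem_cons.1 hv with h | h
    · exact ⟨0, Nat.zero_le _, by simp [h]⟩
    · obtain ⟨i, hi, h2⟩ := ih v h
      exact ⟨i + 1, by simpa using hi, by simpa using h2⟩

lemma take_mem_vis (u : Vx k) (w : List (Lt k)) (i : ℕ) : fin u (w.take i) ∈ vis u w := by
  have h := (mem_vis_append u (w.take i) (w.drop i) (fin u (w.take i))).2
    (Or.inl (fin_mem_vis _ _))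
  rwa [List.take_append_drop] at h

lemma run_rch {δ : Q → Lt k → Q → Prop} {w : List (Lt k)} {st : ℕ → Q}
    (h : ∀ i a, w[i]? = some a → δ (st i) a (st (i + 1))) {i j : ℕ} (hij : i ≤ j)
    (hj : j ≤ w.length) :
    Rch δ (mt w) (fin [] (w.take i), st i) (fin [] (w.take j), st j) := by
  induction j, hij using Nat.le_induction with
  | base => exact ReflTransGen.refl
  | succ j hij ih =>
    refine ReflTransGen.tail (ih (by omega)) ⟨take_mem_vis _ _ _, take_mem_vis _ _ _, w[j], ?_, ?_⟩
    · exact h j w[j] (by rw [List.getElem?_eq_getElem])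
    · show fin [] (w.take (j + 1)) = push (fin [] (w.take j)) w[j]
      rw [List.take_succ_eq_append_getElem (by omega), fin_append]
      rfl

lemma acc_to {δ : Q → Lt k → Q → Prop} {q0 : Q} {F : Set Q} {w : List (Lt k)}
    (h : AccQ δ q0 F w) : AccT δ q0 F (mt w) {fin [] w} := by
  obtain ⟨f, hf, hp⟩ := h
  obtain ⟨st, h1, h2, h3⟩ := (path_iff δ q0 f w).1 hp
  refine ⟨_, ⟨{z | ∃ i ≤ w.length, z = (fin [] (w.take i), st i)}, {(fin [] w, f)}, ?_, rfl⟩, ?_⟩
  · constructor
    · rintro z ⟨i, hi, rfl⟩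
      exact take_mem_vis _ _ _
    · intro u hu
      obtain ⟨i, hi, h4⟩ := vis_take w u hu
      exact ⟨st i, i, hi, by rw [h4]⟩
    · intro z hz
      rw [Set.mem_singleton_iff] at hz
      refine ⟨w.length, le_rfl, ?_⟩
      rw [hz, List.take_length, h2]
    · intro z hz
      rw [Set.mem_singleton_iff] at hz
      rw [hz]
      exact ⟨rfl, hf⟩
    · intro g hg
      rw [Set.mem_singleton_iff] at hg
      exact ⟨f, by rw [hg]; rfl⟩
  · rintro e ⟨z, ⟨i, hi, rfl⟩, z', ⟨j, hj, rfl⟩, rfl⟩
    refine ⟨?_, ?_, ?_⟩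
    · have := run_rch h3 (Nat.zero_le i) hi
      rw [h1] at this
      simpa [dat, pt] using this
    · rcases le_total i j with h4 | h4
      · left
        exact run_rch h3 h4 hj
      · right
        exact run_rch h3 h4 hi
    · intro h5
      have h6 : (fin [] (w.take j), st j) = (fin [] w, f) := h5
      show Rch δ (mt w) (fin [] (w.take i), st i) (fin [] (w.take j), st j)
      rw [h6, ← h2]
      have := run_rch h3 hi le_rfl
      rwa [List.take_length] at this

lemma rch_word {δ : Q → Lt k → Q → Prop} {D : Set (Vx k)} {z z' : Vx k × Q} (hz : z.1 ∈ D)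
    (h : Rch δ D z z') : ∃ w, Path δ z.2 w z'.2 ∧ fin z.1 w = z'.1 ∧ ∀ v ∈ vis z.1 w, v ∈ D := by
  unfold Rch at h
  induction h with
  | refl => exact ⟨[], rfl, rfl, by intro v hv; simp at hv; rw [hv]; exact hz⟩
  | @tail y y' _ hs ih =>
    obtain ⟨w, h1, h2, h3⟩ := ih
    obtain ⟨e1, e2, x, e3, e4⟩ := hs
    refine ⟨w ++ [x], (path_append _ _ _ _ _).2 ⟨y.2, h1, ⟨y'.2, e3, rfl⟩⟩, ?_, ?_⟩
    · rw [fin_append, h2, e4]; rfl
    · intro v hv
      rw [mem_vis_append] at hv
      rcases hv with hv | hv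
      · exact h3 v hv
      · rw [h2] at hv
        simp only [vis_cons, vis_nil, List.mem_cons, List.not_mem_nil, or_false] at hv
        rcases hv with hv | hv
        · rw [hv]; exact e1
        · rw [hv, ← e4]; exact e2

lemma short_reach [Fintype Q] {δ : Q → Lt k → Q → Prop} {D : Set (Vx k)} {A : Finset (Vx k)}
    (hDA : D ⊆ A) {z z' : Vx k × Q} (hz : z.1 ∈ D) (h : Rch δ D z z') :
    ∃ w, Path δ z.2 w z'.2 ∧ fin z.1 w = z'.1 ∧ (∀ v ∈ vis z.1 w, v ∈ D) ∧
      w.length ≤ A.card * Fintype.card Q := by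
  classical
  obtain ⟨w, h1, h2, h3⟩ := rch_word hz h
  have key := stab (A ×ˢ (Finset.univ : Finset Q))
    (fun n => {y : Vx k × Q | ∃ w, Path δ z.2 w y.2 ∧ fin z.1 w = y.1 ∧
      (∀ v ∈ vis z.1 w, v ∈ D) ∧ w.length ≤ n})
    (by
      rintro n y ⟨w, _, e2, e3, _⟩
      simp only [Finset.coe_product, Finset.coe_univ, Set.mem_prod, Set.mem_univ, and_true]
      apply hDA
      apply e3
      rw [← e2]
      exact fin_mem_vis _ _)
    (by
      rintro n y ⟨w, e1, e2, e3, e4⟩
      exact ⟨w, e1, e2, e3, by omega⟩)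
    (by
      intro n hn
      apply Set.Subset.antisymm
      · rintro y ⟨w, e1, e2, e3, e4⟩
        exact ⟨w, e1, e2, e3, by omega⟩
      · rintro y ⟨w, e1, e2, e3, e4⟩
        by_cases hw : w.length ≤ n + 1
        · exact ⟨w, e1, e2, e3, hw⟩
        · rcases eq_nil_or_snoc w with rfl | ⟨w', x, rfl⟩
          · simp at hw
          · obtain ⟨r, g1, r', g2, g3⟩ := (path_append _ _ _ _ _).1 e1
            have g3' : r' = y.2 := g3
            have hmem : ((fin z.1 w', r) : Vx k × Q) ∈ {y : Vx k × Q | ∃ w, Path δ z.2 w y.2 ∧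
                fin z.1 w = y.1 ∧ (∀ v ∈ vis z.1 w, v ∈ D) ∧ w.length ≤ n + 1} := by
              refine ⟨w', g1, rfl, ?_, ?_⟩
              · intro v hv
                exact e3 v ((mem_vis_append _ _ _ _).2 (Or.inl hv))
              · simp only [List.length_append, List.length_cons, List.length_nil] at e4
                omega
            rw [← hn] at hmem
            obtain ⟨w2, k1, k2, k3, k4⟩ := hmem
            simp only at k1 k2
            refine ⟨w2 ++ [x], (path_append _ _ _ _ _).2 ⟨r, k1, ⟨r', g2, g3⟩⟩, ?_, ?_, ?_⟩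
            · rw [fin_append, k2, ← e2, fin_append]
            · intro v hv
              rw [mem_vis_append] at hv
              rcases hv with hv | hv
              · exact k3 v hv
              · rw [k2] at hv
                exact e3 v ((mem_vis_append _ _ _ _).2 (Or.inr hv))
            · simp only [List.length_append, List.length_cons, List.length_nil]
              omega)
    w.length
  have hmem : z' ∈ {y : Vx k × Q | ∃ w, Path δ z.2 w y.2 ∧ fin z.1 w = y.1 ∧
      (∀ v ∈ vis z.1 w, v ∈ D) ∧ w.length ≤ w.length} := ⟨w, h1, h2, h3, le_rfl⟩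
  have hmem2 : z' ∈ (fun n => {y : Vx k × Q | ∃ w, Path δ z.2 w y.2 ∧ fin z.1 w = y.1 ∧
      (∀ v ∈ vis z.1 w, v ∈ D) ∧ w.length ≤ n}) w.length := ⟨w, h1, h2, h3, le_rfl⟩
  have h5 := key hmem2
  simp only [Finset.card_product, Finset.card_univ] at h5
  exact h5

lemma exists_least {α : Type} (R : α → α → Prop) (hr : ∀ a, R a a)
    (ht : ∀ a b c, R a b → R b c → R a c) (Z : Finset α) (hZ : Z.Nonempty)
    (htot : ∀ a ∈ Z, ∀ b ∈ Z, R a b ∨ R b a) : ∃ a ∈ Z, ∀ b ∈ Z, R a b := by
  classical
  induction hZ using Finset.Nonempty.cons_induction with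
  | singleton a => exact ⟨a, by simp, by intro b hb; simp at hb; rw [hb]; exact hr a⟩
  | cons a s ha hs ih =>
    obtain ⟨m, hm, h1⟩ := ih (fun x hx y hy => htot x (by simp [hx]) y (by simp [hy]))
    rcases htot a (by simp) m (by simp [hm]) with h2 | h2
    · refine ⟨a, by simp, ?_⟩
      intro b hb
      rcases Finset.mem_cons.1 hb with rfl | hb
      · exact hr _
      · exact ht _ _ _ h2 (h1 b hb)
    · refine ⟨m, by simp [hm], ?_⟩
      intro b hb
      rcases Finset.mem_cons.1 hb with rfl | hb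
      · exact h2
      · exact h1 b hb

lemma visit_all [Fintype Q] {δ : Q → Lt k → Q → Prop} {D : Set (Vx k)} {A : Finset (Vx k)}
    (hDA : D ⊆ A) (n : ℕ) : ∀ (Z : Finset (Vx k × Q)), Z.card = n → ∀ s e : Vx k × Q,
    s.1 ∈ D → (∀ z ∈ Z, z.1 ∈ D) → (∀ z ∈ Z, Rch δ D s z) → (∀ z ∈ Z, Rch δ D z e) →
    Rch δ D s e → (∀ z ∈ Z, ∀ z' ∈ Z, Rch δ D z z' ∨ Rch δ D z' z) →
    ∃ w, Path δ s.2 w e.2 ∧ fin s.1 w = e.1 ∧ (∀ v ∈ vis s.1 w, v ∈ D) ∧
      (∀ z ∈ Z, z.1 ∈ vis s.1 w) ∧ w.length ≤ (n + 1) * (A.card * Fintype.card Q) := by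
  classical
  induction n with
  | zero =>
    intro Z hZ s e hs _ _ _ hse _
    obtain ⟨w, h1, h2, h3, h4⟩ := short_reach hDA hs hse
    refine ⟨w, h1, h2, h3, ?_, by simpa using h4⟩
    intro z hz
    rw [Finset.card_eq_zero.1 hZ] at hz
    simp at hz
  | succ n ih =>
    intro Z hZ s e hs hZD hsZ hZe hse htot
    have hne : Z.Nonempty := by
      rw [← Finset.card_pos, hZ]; omega
    obtain ⟨m, hm, hmin⟩ := exists_least (Rch δ D) (fun _ => ReflTransGen.refl)
      (fun _ _ _ h1 h2 => ReflTransGen.trans h1 h2) Z hne htot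
    obtain ⟨w1, a1, a2, a3, a4⟩ := short_reach hDA hs (hsZ m hm)
    obtain ⟨w2, b1, b2, b3, b4, b5⟩ := ih (Z.erase m) (by rw [Finset.card_erase_of_mem hm, hZ]; rfl)
      m e (hZD m hm) (fun z hz => hZD z (Finset.mem_of_mem_erase hz))
      (fun z hz => hmin z (Finset.mem_of_mem_erase hz))
      (fun z hz => hZe z (Finset.mem_of_mem_erase hz)) (hZe m hm)
      (fun z hz z' hz' => htot z (Finset.mem_of_mem_erase hz) z' (Finset.mem_of_mem_erase hz'))
    refine ⟨w1 ++ w2, (path_append _ _ _ _ _).2 ⟨m.2, a1, b1⟩, ?_, ?_, ?_, ?_⟩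
    · rw [fin_append, a2, b2]
    · intro v hv
      rw [mem_vis_append, a2] at hv
      rcases hv with hv | hv
      · exact a3 v hv
      · exact b3 v hv
    · intro z hz
      rw [mem_vis_append, a2]
      right
      by_cases h : z = m
      · rw [h]; exact start_mem_vis _ _
      · exact b4 z (Finset.mem_erase.2 ⟨h, hz⟩)
    · rw [List.length_append]
      calc w1.length + w2.length ≤ A.card * Fintype.card Q +
            (n + 1) * (A.card * Fintype.card Q) := Nat.add_le_add a4 b5
        _ = (n + 1 + 1) * (A.card * Fintype.card Q) := by ring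

lemma acc_from [Fintype Q] {δ : Q → Lt k → Q → Prop} {q0 : Q} {F : Set Q} {D : Set (Vx k)}
    {A : Finset (Vx k)} (hDA : D ⊆ A) (hD : Tree [] D) {g : Vx k}
    (h : AccT δ q0 F D {g}) :
    ∃ w, AccQ δ q0 F w ∧ fin [] w = g ∧ (∀ v, v ∈ vis [] w ↔ v ∈ D) ∧
      w.length ≤ (A.card * Fintype.card Q + 1) * (A.card * Fintype.card Q) := by
  classical
  obtain ⟨Φ, ⟨Z, St, hV, rfl⟩, hG⟩ := h
  have hsub : Z ⊆ ((A ×ˢ (Finset.univ : Finset Q) : Finset (Vx k × Q)) : Set (Vx k × Q)) := by
    intro z hz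
    simp only [Finset.coe_product, Finset.coe_univ, Set.mem_prod, Set.mem_univ, and_true]
    exact hDA (hV.sub z hz)
  have hfin : Z.Finite := (Finset.finite_toSet _).subset hsub
  obtain ⟨f, hf⟩ := hV.ex g rfl
  have hfZ := hV.stZ _ hf
  have hfF := (hV.stM _ hf).2
  have hcard : hfin.toFinset.card ≤ A.card * Fintype.card Q := by
    have : hfin.toFinset ⊆ A ×ˢ (Finset.univ : Finset Q) := by
      intro z hz
      have := hsub (hfin.mem_toFinset.1 hz)
      exact_mod_cast this
    calc hfin.toFinset.card ≤ (A ×ˢ (Finset.univ : Finset Q)).card := Finset.card_le_card this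
      _ = A.card * Fintype.card Q := by rw [Finset.card_product, Finset.card_univ]
  have hstart : ∀ z ∈ Z, Rch δ D ([], q0) z := fun z hz => (hG _ ⟨z, hz, z, hz, rfl⟩).1
  obtain ⟨w, h1, h2, h3, h4, h5⟩ := visit_all (δ := δ) hDA _ hfin.toFinset rfl ([], q0) (g, f)
    hD.nil_mem (fun z hz => hV.sub z (hfin.mem_toFinset.1 hz))
    (fun z hz => hstart z (hfin.mem_toFinset.1 hz))
    (fun z hz => (hG _ ⟨z, hfin.mem_toFinset.1 hz, (g, f), hfZ, rfl⟩).2.2 hf)
    (hstart _ hfZ)
    (fun z hz z' hz' => (hG _ ⟨z, hfin.mem_toFinset.1 hz, z', hfin.mem_toFinset.1 hz', rfl⟩).2.1)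
  refine ⟨w, ⟨f, hfF, h1⟩, h2, ?_, ?_⟩
  · intro v
    constructor
    · exact h3 v
    · intro hv
      obtain ⟨s, hs⟩ := hV.cov v hv
      exact h4 (v, s) (hfin.mem_toFinset.2 hs)
  · exact h5.trans (Nat.mul_le_mul_right _ (by omega))

end Pool.Agent.H395R3.Fim
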