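import Pool.Agent.H395R3.FimE

set_option autoImplicit false

namespace Pool.Agent.H395R3.Fim

variable {k : ℕ}

/-- letters as a list -/
noncomputable def letters (k : ℕ) : List (Lt k) := (Finset.univ : Finset (Lt k)).toList

/-- one round of word generation -/
noncomputable def wstep (k : ℕ) (L : List (List (Lt k))) : List (List (Lt k)) :=
  [] :: L.flatMap (fun w => (letters k).map (fun x => x :: w))

/-- all words of length at most n -/
noncomputable def words (k : ℕ) : ℕ → List (List (Lt k))
  | 0 => [[]]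
  | n + 1 => wstep k (words k n)

lemma mem_words (n : ℕ) (w : List (Lt k)) : w ∈ words k n ↔ w.length ≤ n := by
  induction n generalizing w with
  | zero => simp [words]
  | succ n ih =>
    cases w with
    | nil => simp [words, wstep]
    | cons x w => simp [words, wstep, letters, ih]

/-- number of point data -/
def cP (m : ℕ) : ℕ := 2 ^ m * (2 ^ m * 2)
/-- number of types -/
def cT (m : ℕ) : ℕ := 2 * (2 ^ (m * m) * 2 ^ (2 ^ (cP m * (cP m * (2 * 2)))))
/-- depth bound -/
def KK (k m : ℕ) : ℕ := (k * 2 + 1) * (cT m * cT m)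

lemma card_Ty (m : ℕ) : Nat.card (Ty (Fin m)) = cT m := by
  simp [Nat.card_prod, Nat.card_eq_fintype_card, cT, cP, Fintype.card_set, Fintype.card_prod]

lemma card_all (k m : ℕ) : Nat.card (Option (Lt k) × Ty (Fin m) × Ty (Fin m)) = KK k m := by
  rw [Nat.card_prod, Nat.card_prod, card_Ty, KK]
  congr 1
  simp [Nat.card_eq_fintype_card]

/-- first length bound -/
noncomputable def BB (k m : ℕ) : ℕ :=
  ((words k (KK k m)).length * m + 1) * ((words k (KK k m)).length * m)

/-- second length bound -/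
noncomputable def CC (k m : ℕ) : ℕ := ((BB k m + 1) * m + 1) * ((BB k m + 1) * m)

/-- equality in the free inverse monoid -/
def Same (w w' : List (Lt k)) : Prop :=
  (∀ v, v ∈ vis ([] : Vx k) w ↔ v ∈ vis [] w') ∧ fin ([] : Vx k) w = fin [] w'

lemma vis_length (u : Vx k) (w : List (Lt k)) : (vis u w).length = w.length + 1 := by
  induction w generalizing u with
  | nil => rfl
  | cons x w ih => simp [ih]

lemma mt_congr {w w' : List (Lt k)} (h : Same w w') : mt w = mt w' := by
  ext v
  exact h.1 v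

theorem bounded {m : ℕ} (δ₁ δ₂ : Fin m → Lt k → Fin m → Prop) (q₁ q₂ : Fin m)
    (F₁ F₂ : Set (Fin m)) :
    (∀ w, AccQ δ₁ q₁ F₁ w → ∃ w', AccQ δ₂ q₂ F₂ w' ∧ Same w w') ↔
    (∀ w, w.length ≤ BB k m → AccQ δ₁ q₁ F₁ w →
      ∃ w', w'.length ≤ CC k m ∧ AccQ δ₂ q₂ F₂ w' ∧ Same w w') := by
  classical
  constructor
  · intro h w hw hacc
    obtain ⟨w', h1, h2⟩ := h w hacc
    have h3 := acc_to h1
    rw [← mt_congr h2, ← h2.2] at h3
    obtain ⟨w'', g1, g2, g3, g4⟩ := acc_from (A := (vis ([] : Vx k) w).toFinset)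
      (by intro v hv; simpa [mt] using hv) (mt_tree w) h3
    refine ⟨w'', g4.trans ?_, g1, ⟨fun v => (g3 v).symm, g2.symm⟩⟩
    have hc : (vis ([] : Vx k) w).toFinset.card ≤ BB k m + 1 := by
      refine (List.toFinset_card_le _).trans ?_
      rw [vis_length]
      omega
    rw [Fintype.card_fin]
    unfold CC
    have h5 : (vis ([] : Vx k) w).toFinset.card * m ≤ (BB k m + 1) * m := Nat.mul_le_mul_right _ hc
    exact Nat.mul_le_mul (by omega) h5
  · intro h w hacc
    have h1 := acc_to hacc
    obtain ⟨D', M', g1, g2, g3, g4, g5, g6⟩ := small_model δ₁ δ₂ F₁ F₂ (mt_tree w)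
      (by
        have : mt w = ((vis ([] : Vx k) w).toFinset : Set (Vx k)) := by ext v; simp [mt]
        rw [this]; exact Finset.finite_toSet _)
      (M := {fin [] w}) (by intro v hv; rw [Set.mem_singleton_iff.1 hv]; exact fin_mem_vis _ _)
      Set.subsingleton_singleton
    have hne : M'.Nonempty := by
      have := congrArg Prod.fst g5
      have h2 : ({fin [] w} : Set (Vx k)).Nonempty = M'.Nonempty := this
      rw [← h2]; exact Set.singleton_nonempty _
    obtain ⟨g', hg'⟩ := hne
    have hM' : M' = {g'} := g3.eq_singleton_of_mem hg'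
    rw [hM'] at g5 g6
    rw [card_all] at g4
    have h2 : AccT δ₁ q₁ F₁ D' {g'} := by
      unfold AccT at h1 ⊢
      rwa [g5] at h1
    obtain ⟨w₁, k1, k2, k3, k4⟩ := acc_from (A := (words k (KK k m)).toFinset)
      (by intro v hv; simpa [mem_words] using g4 v hv) g1 h2
    have hlen : w₁.length ≤ BB k m := by
      refine k4.trans ?_
      rw [Fintype.card_fin]
      have h5 := Nat.mul_le_mul_right m (List.toFinset_card_le (words k (KK k m)))
      exact Nat.mul_le_mul (by omega) h5
    obtain ⟨w₁', _, j1, j2⟩ := h w₁ hlen k1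
    have h3 := acc_to j1
    rw [← mt_congr j2, ← j2.2, k2] at h3
    have h4 : mt w₁ = D' := by ext v; exact k3 v
    rw [h4] at h3
    have h5 : AccT δ₂ q₂ F₂ (mt w) {fin [] w} := by
      unfold AccT at h3 ⊢
      rwa [g6]
    obtain ⟨w'', l1, l2, l3, _⟩ := acc_from (A := (vis ([] : Vx k) w).toFinset)
      (by intro v hv; simpa [mt] using hv) (mt_tree w) h5
    exact ⟨w'', l1, fun v => (l3 v).symm, l2.symm⟩

end Pool.Agent.H395R3.Fim
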