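import Pool.Agent.H395R3.FimF

set_option autoImplicit false

namespace Pool.Agent.H395R3.Fim

variable {k : ℕ}

/-- finite automata -/
abbrev Aut (k : ℕ) := List (ℕ × Lt k × ℕ) × ℕ × List ℕ

/-- transition relation -/
def δN (E : List (ℕ × Lt k × ℕ)) (q : ℕ) (x : Lt k) (q' : ℕ) : Prop := (q, x, q') ∈ E

/-- acceptance as in the frozen statement -/
def Acc (A : Aut k) (w : List (Lt k)) : Prop :=
  ∃ s : List ℕ, s.length = w.length + 1 ∧ s.getD 0 0 = A.2.1 ∧ s.getD w.length 0 ∈ A.2.2 ∧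
    ∀ (i : ℕ) (a : Lt k), w[i]? = some a → (s.getD i 0, a, s.getD (i + 1) 0) ∈ A.1

lemma acc_iff (A : Aut k) (w : List (Lt k)) :
    Acc A w ↔ ∃ f ∈ A.2.2, Path (δN A.1) A.2.1 w f := by
  constructor
  · rintro ⟨s, _, h1, h2, h3⟩
    exact ⟨_, h2, (path_iff _ _ _ _).2 ⟨fun i => s.getD i 0, h1, rfl, h3⟩⟩
  · rintro ⟨f, hf, hp⟩
    obtain ⟨st, h1, h2, h3⟩ := (path_iff _ _ _ _).1 hp
    have hg : ∀ i, i < w.length + 1 → ((List.range (w.length + 1)).map st).getD i 0 = st i := by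
      intro i hi
      rw [List.getD_eq_getElem?_getD, List.getElem?_map, List.getElem?_range hi]
      rfl
    refine ⟨(List.range (w.length + 1)).map st, by simp, ?_, ?_, ?_⟩
    · rw [hg 0 (by omega), h1]
    · rw [hg _ (by omega), h2]; exact hf
    · intro i a hi
      have hlt : i < w.length := by
        by_contra hc
        rw [List.getElem?_eq_none (by omega)] at hi
        exact absurd hi (by simp)
      rw [hg i (by omega), hg (i + 1) (by omega)]
      exact h3 i a hi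

/-- state bound -/
def bnd (A : Aut k) : ℕ := A.1.foldl (fun acc e => acc + e.2.2) A.2.1 + 1

lemma foldl_le (E : List (ℕ × Lt k × ℕ)) (n : ℕ) :
    n ≤ E.foldl (fun acc e => acc + e.2.2) n ∧
    ∀ e ∈ E, e.2.2 ≤ E.foldl (fun acc e => acc + e.2.2) n := by
  induction E generalizing n with
  | nil => simp
  | cons e E ih =>
    obtain ⟨h1, h2⟩ := ih (n + e.2.2)
    refine ⟨?_, ?_⟩
    · simp only [List.foldl_cons]; omega
    · intro e' he'
      rcases List.mem_cons.1 he' with rfl | he'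
      · simp only [List.foldl_cons]; omega
      · exact h2 e' he'

lemma bnd_init (A : Aut k) : A.2.1 < bnd A := Nat.lt_succ_of_le (foldl_le A.1 A.2.1).1
lemma bnd_tr (A : Aut k) : ∀ e ∈ A.1, e.2.2 < bnd A :=
  fun e he => Nat.lt_succ_of_le ((foldl_le A.1 A.2.1).2 e he)

/-- transitions on `Fin m` -/
def δF (E : List (ℕ × Lt k × ℕ)) (m : ℕ) (q : Fin m) (x : Lt k) (q' : Fin m) : Prop :=
  ((q : ℕ), x, (q' : ℕ)) ∈ E

lemma path_fin {E : List (ℕ × Lt k × ℕ)} {m : ℕ} (hb : ∀ e ∈ E, e.2.2 < m) (q : Fin m)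
    (w : List (Lt k)) (f : ℕ) :
    Path (δN E) (q : ℕ) w f ↔ ∃ f' : Fin m, (f' : ℕ) = f ∧ Path (δF E m) q w f' := by
  induction w generalizing q with
  | nil =>
    constructor
    · intro h; exact ⟨q, h, rfl⟩
    · rintro ⟨f', h1, h2⟩
      have h2' : q = f' := h2
      show (q : ℕ) = f
      rw [h2', h1]
  | cons x w ih =>
    constructor
    · rintro ⟨r, h1, h2⟩
      have hr : r < m := hb _ h1
      obtain ⟨f', h3, h4⟩ := (ih ⟨r, hr⟩).1 h2
      exact ⟨f', h3, ⟨r, hr⟩, h1, h4⟩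
    · rintro ⟨f', h3, r, h1, h4⟩
      exact ⟨r, h1, (ih r).2 ⟨f', h3, h4⟩⟩

lemma acc_fin (A : Aut k) {m : ℕ} (hm : bnd A ≤ m) (w : List (Lt k)) :
    Acc A w ↔ AccQ (δF A.1 m) ⟨A.2.1, (bnd_init A).trans_le hm⟩ {f | (f : ℕ) ∈ A.2.2} w := by
  rw [acc_iff]
  have hb : ∀ e ∈ A.1, e.2.2 < m := fun e he => (bnd_tr A e he).trans_le hm
  constructor
  · rintro ⟨f, hf, hp⟩
    obtain ⟨f', h1, h2⟩ := (path_fin hb ⟨A.2.1, (bnd_init A).trans_le hm⟩ w f).1 hp
    exact ⟨f', by rw [Set.mem_setOf_eq, h1]; exact hf, h2⟩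
  · rintro ⟨f', hf, hp⟩
    exact ⟨f', hf, (path_fin hb ⟨A.2.1, (bnd_init A).trans_le hm⟩ w f').2 ⟨f', rfl, hp⟩⟩

/-- one letter step -/
def stepS (E : List (ℕ × Lt k × ℕ)) (S : List ℕ) (x : Lt k) : List ℕ :=
  E.flatMap (fun e => if e.1 ∈ S ∧ e.2.1 = x then [e.2.2] else [])

lemma mem_stepS (E : List (ℕ × Lt k × ℕ)) (S : List ℕ) (x : Lt k) (q' : ℕ) :
    q' ∈ stepS E S x ↔ ∃ q ∈ S, (q, x, q') ∈ E := by
  unfold stepS
  rw [List.mem_flatMap]
  constructor
  · rintro ⟨⟨a, b, c⟩, he, h⟩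
    split_ifs at h with h1
    · simp only [List.mem_singleton] at h
      simp only at h1
      refine ⟨a, h1.1, ?_⟩
      rw [← h1.2, h]; exact he
    · simp at h
  · rintro ⟨q, hq, he⟩
    exact ⟨_, he, by simp [hq]⟩

/-- decidable acceptance -/
def accP (A : Aut k) (w : List (Lt k)) : Prop :=
  ∃ f ∈ w.foldl (stepS A.1) [A.2.1], f ∈ A.2.2

lemma mem_foldl_stepS (E : List (ℕ × Lt k × ℕ)) (S : List ℕ) (w : List (Lt k)) (q' : ℕ) :
    q' ∈ w.foldl (stepS E) S ↔ ∃ q ∈ S, Path (δN E) q w q' := by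
  induction w generalizing S with
  | nil =>
    constructor
    · intro h; exact ⟨q', h, rfl⟩
    · rintro ⟨q, hq, h⟩
      have h' : q = q' := h
      rw [← h']; exact hq
  | cons x w ih =>
    rw [List.foldl_cons, ih]
    constructor
    · rintro ⟨r, hr, h⟩
      obtain ⟨q, hq, he⟩ := (mem_stepS _ _ _ _).1 hr
      exact ⟨q, hq, r, he, h⟩
    · rintro ⟨q, hq, r, he, h⟩
      exact ⟨r, (mem_stepS _ _ _ _).2 ⟨q, hq, he⟩, h⟩

lemma accP_iff (A : Aut k) (w : List (Lt k)) : accP A w ↔ Acc A w := by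
  rw [acc_iff]
  unfold accP
  constructor
  · rintro ⟨f, hf, h⟩
    obtain ⟨q, hq, hp⟩ := (mem_foldl_stepS _ _ _ _).1 hf
    rw [List.mem_singleton] at hq
    subst hq
    exact ⟨f, h, hp⟩
  · rintro ⟨f, h, hp⟩
    exact ⟨f, (mem_foldl_stepS _ _ _ _).2 ⟨_, List.mem_singleton.2 rfl, hp⟩, h⟩

/-- visited vertices by folding, most recent first -/
def trail (w : List (Lt k)) : List (Vx k) := w.foldl (fun acc x => push acc.headI x :: acc) [[]]

lemma trail_snoc (w : List (Lt k)) (x : Lt k) :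
    trail (w ++ [x]) = push (trail w).headI x :: trail w := by
  unfold trail
  rw [List.foldl_append]
  rfl

lemma trail_spec (w : List (Lt k)) :
    (trail w).headI = fin [] w ∧ ∀ v, v ∈ trail w ↔ v ∈ vis ([] : Vx k) w := by
  induction w using List.reverseRecOn with
  | nil => exact ⟨rfl, fun v => Iff.rfl⟩
  | append_singleton w x ih =>
    obtain ⟨h1, h2⟩ := ih
    rw [trail_snoc]
    refine ⟨?_, ?_⟩
    · rw [fin_append, h1]; rfl
    · intro v
      rw [mem_vis_append, List.mem_cons, h2, h1]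
      simp only [vis_cons, vis_nil, List.mem_cons, List.not_mem_nil, or_false]
      constructor
      · rintro (h | h)
        · exact Or.inr (Or.inr h)
        · exact Or.inl h
      · rintro (h | h | h)
        · exact Or.inr h
        · right; rw [h]; exact fin_mem_vis _ _
        · exact Or.inl h

/-- decidable sameness -/
def sameP (w w' : List (Lt k)) : Prop :=
  (∀ v ∈ trail w, v ∈ trail w') ∧ (∀ v ∈ trail w', v ∈ trail w) ∧
    (trail w).headI = (trail w').headI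

lemma sameP_iff (w w' : List (Lt k)) : sameP w w' ↔ Same w w' := by
  unfold sameP Same
  rw [(trail_spec w).1, (trail_spec w').1]
  constructor
  · rintro ⟨h1, h2, h3⟩
    refine ⟨fun v => ?_, h3⟩
    rw [← (trail_spec w).2, ← (trail_spec w').2]
    exact ⟨h1 v, h2 v⟩
  · rintro ⟨h1, h3⟩
    refine ⟨fun v hv => ?_, fun v hv => ?_, h3⟩
    · rw [(trail_spec w').2, ← h1, ← (trail_spec w).2]; exact hv
    · rw [(trail_spec w).2, h1, ← (trail_spec w').2]; exact hv

/-- the number of states to use -/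
def mm (p : Aut k × Aut k) : ℕ := bnd p.1 + bnd p.2

/-- the decision predicate -/
def dec (p : Aut k × Aut k) : Prop :=
  ∀ w ∈ words k (BB k (mm p)), ¬ accP p.1 w ∨
    ∃ w' ∈ words k (CC k (mm p)), accP p.2 w' ∧ sameP w w'

/-- the problem predicate -/
def incl (p : Aut k × Aut k) : Prop :=
  ∀ w, Acc p.1 w → ∃ w', Acc p.2 w' ∧
    conGen (vagRel k) (FreeMonoid.ofList w) (FreeMonoid.ofList w')

theorem incl_iff_dec (p : Aut k × Aut k) : incl p ↔ dec p := by
  have hm1 : bnd p.1 ≤ mm p := by unfold mm; omega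
  have hm2 : bnd p.2 ≤ mm p := by unfold mm; omega
  have hb := bounded (k := k) (m := mm p) (δF p.1.1 (mm p)) (δF p.2.1 (mm p))
    ⟨p.1.2.1, (bnd_init p.1).trans_le hm1⟩ ⟨p.2.2.1, (bnd_init p.2).trans_le hm2⟩
    {f | (f : ℕ) ∈ p.1.2.2} {f | (f : ℕ) ∈ p.2.2.2}
  unfold incl dec
  constructor
  · intro h w hw
    by_cases hacc : accP p.1 w
    · right
      rw [mem_words] at hw
      have hacc' := (acc_fin p.1 hm1 w).1 ((accP_iff _ _).1 hacc)
      obtain ⟨w', h1, h2, h3⟩ := hb.1 (by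
        intro w hw
        obtain ⟨w', h1, h2⟩ := h w ((acc_fin p.1 hm1 w).2 hw)
        exact ⟨w', (acc_fin p.2 hm2 w').1 h1, (munn w w').1 h2⟩) w hw hacc'
      exact ⟨w', (mem_words _ _).2 h1, (accP_iff _ _).2 ((acc_fin p.2 hm2 w').2 h2),
        (sameP_iff _ _).2 h3⟩
    · left; exact hacc
  · intro h w hacc
    obtain ⟨w', h1, h2⟩ := hb.2 (by
      intro w hw hacc
      rcases h w ((mem_words _ _).2 hw) with h1 | ⟨w', h1, h2, h3⟩
      · exact absurd ((accP_iff _ _).2 ((acc_fin p.1 hm1 w).2 hacc)) h1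
      · exact ⟨w', (mem_words _ _).1 h1, (acc_fin p.2 hm2 w').1 ((accP_iff _ _).1 h2),
          (sameP_iff _ _).1 h3⟩) w ((acc_fin p.1 hm1 w).1 hacc)
    exact ⟨w', (acc_fin p.2 hm2 w').2 h1, (munn w w').2 h2⟩

end Pool.Agent.H395R3.Fim
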