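import Pool.Agent.H395R3.FimG

set_option autoImplicit false

namespace Pool.Agent.H395R3.Fim

variable {k : ℕ}

lemma prim_wstep : Primrec (wstep k) := by
  unfold wstep
  refine Primrec.list_cons.comp (Primrec.const []) (Primrec.list_flatMap Primrec.id ?_)
  exact Primrec.list_map (Primrec.const (letters k))
    (Primrec.list_cons.comp Primrec.snd (Primrec.snd.comp Primrec.fst))

lemma prim_words : Primrec (words k) := by
  have h : Primrec (Nat.rec (motive := fun _ => List (List (Lt k))) [[]]
      (fun _ L => wstep k L)) :=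
    Primrec.nat_rec₁ (f := fun _ L => wstep k L) [[]] (prim_wstep.comp Primrec.snd)
  refine h.of_eq ?_
  intro n
  induction n with
  | zero => rfl
  | succ n ih =>
    show wstep k _ = wstep k _
    rw [ih]

lemma prim_pow : Primrec₂ (fun a b : ℕ => a ^ b) := Primrec₂.unpaired'.1 Nat.Primrec.pow

lemma prim_mul' {α : Type} [Primcodable α] {f g : α → ℕ} (hf : Primrec f) (hg : Primrec g) :
    Primrec (fun a => f a * g a) := Primrec.nat_mul.comp hf hg

lemma prim_add' {α : Type} [Primcodable α] {f g : α → ℕ} (hf : Primrec f) (hg : Primrec g) :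
    Primrec (fun a => f a + g a) := Primrec.nat_add.comp hf hg

lemma prim_pow' {α : Type} [Primcodable α] {f g : α → ℕ} (hf : Primrec f) (hg : Primrec g) :
    Primrec (fun a => f a ^ g a) := prim_pow.comp hf hg

lemma prim_cP : Primrec cP := by
  unfold cP
  have h : Primrec (fun m : ℕ => 2 ^ m) := prim_pow' (Primrec.const 2) Primrec.id
  exact prim_mul' h (prim_mul' h (Primrec.const 2))

lemma prim_cT : Primrec cT := by
  unfold cT
  refine prim_mul' (Primrec.const 2) (prim_mul' (prim_pow' (Primrec.const 2)
    (prim_mul' Primrec.id Primrec.id)) (prim_pow' (Primrec.const 2) (prim_pow' (Primrec.const 2)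
    (prim_mul' prim_cP (prim_mul' prim_cP (Primrec.const _))))))

lemma prim_KK : Primrec (KK k) := by
  unfold KK
  exact prim_mul' (Primrec.const _) (prim_mul' prim_cT prim_cT)

lemma prim_BB : Primrec (BB k) := by
  unfold BB
  have h : Primrec (fun m => (words k (KK k m)).length * m) :=
    prim_mul' (Primrec.list_length.comp (prim_words.comp prim_KK)) Primrec.id
  exact prim_mul' (prim_add' h (Primrec.const 1)) h

lemma prim_CC : Primrec (CC k) := by
  unfold CC
  have h : Primrec (fun m => (BB k m + 1) * m) :=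
    prim_mul' (prim_add' prim_BB (Primrec.const 1)) Primrec.id
  exact prim_mul' (prim_add' h (Primrec.const 1)) h

lemma prim_bnd : Primrec (bnd : Aut k → ℕ) := by
  unfold bnd
  refine prim_add' ?_ (Primrec.const 1)
  refine Primrec.list_foldl (f := fun A : Aut k => A.1) (g := fun A : Aut k => A.2.1)
    (h := fun _ (z : ℕ × (ℕ × Lt k × ℕ)) => z.1 + z.2.2.2) Primrec.fst
    (Primrec.fst.comp Primrec.snd) ?_
  exact prim_add' (Primrec.fst.comp Primrec.snd)
    (Primrec.snd.comp (Primrec.snd.comp (Primrec.snd.comp Primrec.snd)))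

lemma prim_mm : Primrec (mm : Aut k × Aut k → ℕ) :=
  prim_add' (prim_bnd.comp Primrec.fst) (prim_bnd.comp Primrec.snd)

lemma prim_mem {α : Type} [Primcodable α] : PrimrecRel (fun (L : List α) (b : α) => b ∈ L) :=
  (Primrec.eq.exists_mem_list).of_eq (by intro L b; simp)

lemma prim_stepS : Primrec (fun p : (List (ℕ × Lt k × ℕ) × List ℕ) × Lt k =>
    stepS p.1.1 p.1.2 p.2) := by
  unfold stepS
  refine Primrec.list_flatMap (Primrec.fst.comp Primrec.fst) ?_
  refine Primrec.ite ?_ ?_ (Primrec.const [])
  · refine PrimrecPred.and ?_ ?_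
    · exact prim_mem.comp (Primrec.snd.comp (Primrec.fst.comp Primrec.fst))
        (Primrec.fst.comp Primrec.snd)
    · exact Primrec.eq.comp (Primrec.fst.comp (Primrec.snd.comp Primrec.snd))
        (Primrec.snd.comp Primrec.fst)
  · exact Primrec.list_cons.comp (Primrec.snd.comp (Primrec.snd.comp Primrec.snd))
      (Primrec.const [])

lemma prim_run : Primrec (fun p : Aut k × List (Lt k) =>
    p.2.foldl (stepS p.1.1) [p.1.2.1]) := by
  refine Primrec.list_foldl (f := fun p : Aut k × List (Lt k) => p.2)
    (g := fun p : Aut k × List (Lt k) => [p.1.2.1])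
    (h := fun p (z : List ℕ × Lt k) => stepS p.1.1 z.1 z.2) Primrec.snd ?_ ?_
  · exact Primrec.list_cons.comp (Primrec.fst.comp (Primrec.snd.comp Primrec.fst))
      (Primrec.const [])
  · exact prim_stepS.comp (Primrec.pair (Primrec.pair
      (Primrec.fst.comp (Primrec.fst.comp Primrec.fst)) (Primrec.fst.comp Primrec.snd))
      (Primrec.snd.comp Primrec.snd))

lemma prim_accP : PrimrecRel (fun (A : Aut k) (w : List (Lt k)) => accP A w) := by
  unfold accP
  have h : PrimrecRel (fun (f : ℕ) (b : List ℕ) => f ∈ b) :=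
    prim_mem.comp Primrec.snd Primrec.fst
  exact h.exists_mem_list.comp prim_run (Primrec.snd.comp (Primrec.snd.comp Primrec.fst))

lemma prim_push : Primrec₂ (push : Vx k → Lt k → Vx k) := by
  have h : Primrec (fun p : Vx k × Lt k => (List.casesOn (motive := fun _ => Vx k) p.1 [p.2]
      (fun y t => if y = inv p.2 then t else p.2 :: y :: t))) := by
    refine Primrec.list_casesOn (f := fun p : Vx k × Lt k => p.1) (g := fun p => [p.2])
      (h := fun p (z : Lt k × List (Lt k)) => if z.1 = inv p.2 then z.2 else p.2 :: z.1 :: z.2)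
      Primrec.fst (Primrec.list_cons.comp Primrec.snd (Primrec.const [])) ?_
    refine Primrec.ite ?_ (Primrec.snd.comp Primrec.snd) ?_
    · exact Primrec.eq.comp (Primrec.fst.comp Primrec.snd)
        ((Primrec.dom_finite inv).comp (Primrec.snd.comp Primrec.fst))
    · exact Primrec.list_cons.comp (Primrec.snd.comp Primrec.fst)
        (Primrec.list_cons.comp (Primrec.fst.comp Primrec.snd) (Primrec.snd.comp Primrec.snd))
  refine h.of_eq ?_
  rintro ⟨u, x⟩
  cases u <;> rfl

lemma prim_trail : Primrec (trail : List (Lt k) → List (Vx k)) := by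
  unfold trail
  refine Primrec.list_foldl (f := fun w : List (Lt k) => w) (g := fun _ => [[]])
    (h := fun _ (z : List (Vx k) × Lt k) => push z.1.headI z.2 :: z.1) Primrec.id
    (Primrec.const _) ?_
  exact Primrec.list_cons.comp (prim_push.comp (Primrec.list_headI.comp
    (Primrec.fst.comp Primrec.snd)) (Primrec.snd.comp Primrec.snd)) (Primrec.fst.comp Primrec.snd)

lemma prim_sameP : PrimrecRel (sameP : List (Lt k) → List (Lt k) → Prop) := by
  have h : PrimrecRel (fun (L L' : List (Vx k)) => ∀ v ∈ L, v ∈ L') := by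
    have h1 : PrimrecRel (fun (f : Vx k) (b : List (Vx k)) => f ∈ b) :=
      prim_mem.comp Primrec.snd Primrec.fst
    exact h1.forall_mem_list
  have t1 : Primrec (fun p : List (Lt k) × List (Lt k) => trail p.1) := prim_trail.comp Primrec.fst
  have t2 : Primrec (fun p : List (Lt k) × List (Lt k) => trail p.2) := prim_trail.comp Primrec.snd
  exact (h.comp t1 t2).and ((h.comp t2 t1).and
    (Primrec.eq.comp (Primrec.list_headI.comp t1) (Primrec.list_headI.comp t2)))

lemma prim_dec : PrimrecPred (dec : Aut k × Aut k → Prop) := by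
  unfold dec
  have h2 : PrimrecRel (fun (w' : List (Lt k)) (z : (Aut k × Aut k) × List (Lt k)) =>
      accP z.1.2 w' ∧ sameP z.2 w') := by
    refine PrimrecPred.and ?_ ?_
    · exact prim_accP.comp (Primrec.snd.comp (Primrec.fst.comp Primrec.snd)) Primrec.fst
    · exact prim_sameP.comp (Primrec.snd.comp Primrec.snd) Primrec.fst
  have h1 : PrimrecRel (fun (w : List (Lt k)) (p : Aut k × Aut k) => ¬ accP p.1 w ∨
      ∃ w' ∈ words k (CC k (mm p)), accP p.2 w' ∧ sameP w w') := by
    refine PrimrecPred.or (PrimrecPred.not ?_) ?_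
    · exact prim_accP.comp (Primrec.fst.comp Primrec.snd) Primrec.fst
    · exact h2.exists_mem_list.comp (prim_words.comp (prim_CC.comp (prim_mm.comp Primrec.snd)))
        (Primrec.pair Primrec.snd Primrec.fst)
  exact h1.forall_mem_list.comp (prim_words.comp (prim_BB.comp prim_mm)) Primrec.id

theorem comp_incl : ComputablePred (incl : Aut k × Aut k → Prop) := by
  have h : (incl : Aut k × Aut k → Prop) = dec := by
    funext p
    exact propext (incl_iff_dec p)
  rw [h]
  exact prim_dec.computablePred

end Pool.Agent.H395R3.Fim
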